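import Pool.Agent.Helper23.XB.Z1
import Pool.Agent.Helper23.XB.A0
import Pool.Agent.Helper23.XB.A2b

/-! # An inaccessible cardinal below a supercompact cardinal -/

set_option autoImplicit false

namespace Pool.Agent.Helper23.SC

open Cardinal Filter Set Order Ordinal Pool.Agent.Helper23.XB

universe u

variable {K : Type u} [LinearOrder K] [Inac K] {F : Ultrafilter (Set K)}

/-- Almost all `y`: all initial segments of `Iio (kF y)` have small power sets. -/
theorem ae_strong (hF : NF K F) (c : K → Cardinal.{u}) (hc : ∀ i, c i < #K) :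
    ∀ᶠ y : Set K in (F : Filter (Set K)), ∀ i < kF id y, c i < #(Iio (kF id y)) := by
  refine kF_diag hF id Function.injective_id (fun i y => c i < #(Iio (kF id y))) fun i => ?_
  obtain ⟨j, hj⟩ := inac_exists_card (hc i)
  filter_upwards [kF_unb hF id Function.injective_id j] with y hy
  exact hj.trans_le (mk_le_mk_of_subset (Iio_subset_Iio hy.le))

/-- Almost all `y`: there is no cofinal function from a proper initial segment. -/
theorem ae_reg (hF : NF K F) : ∀ᶠ y : Set K in (F : Filter (Set K)), ∀ i < kF id y, ∀ f : K → K,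
    (∀ a < i, f a < kF id y) → ∃ b < kF id y, ∀ a < i, f a < b := by
  classical
  by_contra hc
  have h1 : ∀ᶠ y : Set K in (F : Filter (Set K)), ∃ i < kF id y, ∃ f : K → K,
      (∀ a < i, f a < kF id y) ∧ ∀ b < kF id y, ∃ a < i, b ≤ f a := by
    filter_upwards [Ultrafilter.eventually_not.2 hc] with y hy
    push Not at hy
    exact hy
  have hk := kF_iff hF id Function.injective_id
  have h2 : ∃ I : Set K → K, ∃ f : Set K → K → K, ∀ᶠ y : Set K in (F : Filter (Set K)),
      I y < kF id y ∧ (∀ a < I y, f y a < kF id y) ∧ ∀ b < kF id y, ∃ a < I y, b ≤ f y a := by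
    have h3 : ∀ y : Set K, ∃ i : K, ∃ f : K → K, (∃ i < kF id y, ∃ f : K → K,
      (∀ a < i, f a < kF id y) ∧ ∀ b < kF id y, ∃ a < i, b ≤ f a) → i < kF id y ∧
      (∀ a < i, f a < kF id y) ∧ ∀ b < kF id y, ∃ a < i, b ≤ f a := by
      intro y
      by_cases h : ∃ i < kF id y, ∃ f : K → K,
        (∀ a < i, f a < kF id y) ∧ ∀ b < kF id y, ∃ a < i, b ≤ f a
      · obtain ⟨i, hi, f, h4, h5⟩ := h
        exact ⟨i, f, fun _ => ⟨hi, h4, h5⟩⟩
      · exact ⟨Classical.arbitrary K, id, fun h' => absurd h' h⟩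
    choose I f hIf using h3
    exact ⟨I, f, h1.mono fun y hy => hIf y hy⟩
  obtain ⟨I, f, hI⟩ := h2
  obtain ⟨i, hi⟩ := hF.normal I (by
    filter_upwards [hI, hk] with y hy hy'
    exact (hy' _).2 hy.1)
  have h4 : ∀ a : Iio i, ∃ b, ∀ᶠ y : Set K in (F : Filter (Set K)), f y a.1 = b := by
    intro a
    refine hF.normal (fun y => f y a.1) ?_
    filter_upwards [hI, hk, hi] with y hy hy' hy2
    have ha : a.1 < I y := by rw [hy2]; exact a.2
    exact (hy' _).2 (hy.2.1 _ ha)
  choose b hb using h4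
  have h5 : #(Iio i) < #K := Inac.small i
  have h6 := hF.complete (Iio i) (fun a => {y | f y a.1 = b a}) h5 hb
  obtain ⟨B, hB⟩ := inac_bdd (range b) (mk_range_le.trans_lt h5)
  obtain ⟨y, hy1, hy2, hy3, hy4⟩ := (hI.and (hi.and ((show ∀ᶠ y : Set K in (F : Filter (Set K)),
    y ∈ ⋂ a, {y | f y a.1 = b a} from h6).and (kF_unb hF id Function.injective_id B)))).exists
  obtain ⟨a, ha, hab⟩ := hy1.2.2 B hy4
  rw [hy2] at ha
  have h7 := mem_iInter.1 hy3 ⟨a, ha⟩
  have h8 : f y a = b ⟨a, ha⟩ := h7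
  rw [h8] at hab
  exact absurd (hB _ (mem_range_self _)) (not_lt.2 hab)

/-- There is an inaccessible cardinal below a supercompact cardinal. -/
theorem exists_inaccessible_lt (κ : Cardinal.{u}) (hκ : Supercompact κ) :
    ∃ δ < κ, IsInaccessible δ := by
  have hi := supercompact_inaccessible κ hκ
  have hinac : Inac κ.ord.ToType := inac_ord hi
  have eK : #κ.ord.ToType = κ := by rw [mk_toType, card_ord]
  obtain ⟨F, hF⟩ := nf_of_supercompact κ hκ κ.ord.ToType eK κ.ord.ToType
  obtain ⟨y, h1, h2, h3⟩ := ((ae_strong hF (fun i => 2 ^ #(Iio i)) fun i =>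
    inac_two_pow (Inac.small i)).and ((ae_reg hF).and
      (((ae_strong hF (fun _ => ℵ₀) fun _ => by rw [eK]; exact hi.aleph0_lt)).and
        (kF_unb hF id Function.injective_id (Classical.arbitrary _))))).exists
  obtain ⟨h3, h4⟩ := h3
  set k : κ.ord.ToType := kF id y with hk
  set δ := #(Iio k) with hδ
  have hω : ℵ₀ < δ := h3 _ h4
  refine ⟨δ, (Inac.small k).trans_eq eK, hω, ?_, ?_⟩
  · -- regularity
    have e1 : typeLT (Iio k) = δ.ord := by
      refine le_antisymm ?_ (ord_le_type _)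
      by_contra hlt
      rw [not_le] at hlt
      have h5 : δ.ord < typeLT (Iio k) := hlt
      obtain ⟨⟨i, hi'⟩, hi2⟩ := Ordinal.typein_surj (α := Iio k) (· < ·) h5
      have h6 : #(Iio (⟨i, hi'⟩ : Iio k)) = δ := by
        have := congrArg Ordinal.card hi2
        rw [card_ord] at this
        rw [← this]
        rfl
      have h7 : #(Iio (⟨i, hi'⟩ : Iio k)) ≤ #(Iio i) := by
        refine mk_le_of_injective (f := fun a => ⟨a.1.1, a.2⟩) ?_
        intro a b hab
        exact Subtype.ext (Subtype.ext (Subtype.mk.inj hab))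
      have h8 := h1 i hi'
      rw [h6] at h7
      exact absurd (h7.trans (cantor _).le) (not_le.2 h8)
    have e2 : δ.ord.cof = Order.cof (Iio k) := by
      rw [← e1, Ordinal.cof_type]
    rw [e2]
    obtain ⟨s, hs, hs2⟩ := Order.exists_cof_eq (Iio k)
    rw [← hs2]
    by_contra hlt
    rw [not_le] at hlt
    have h5 : (#s).ord < typeLT (Iio k) := by rw [e1]; exact ord_lt_ord.2 hlt
    obtain ⟨⟨i, hi'⟩, hi2⟩ := Ordinal.typein_surj (α := Iio k) (· < ·) h5
    have h6 : #(Iio (⟨i, hi'⟩ : Iio k)) = #s := by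
      have := congrArg Ordinal.card hi2
      rw [card_ord] at this
      rw [← this]
      rfl
    obtain ⟨g⟩ := Cardinal.eq.1 h6
    classical
    let f : κ.ord.ToType → κ.ord.ToType := fun a =>
      if h : a < i then (g ⟨⟨a, h.trans hi'⟩, h⟩).1.1 else a
    obtain ⟨b, hb, hb2⟩ := h2 i hi' f fun a ha => by
      simp only [f, dif_pos ha]
      exact (g ⟨⟨a, ha.trans hi'⟩, ha⟩).1.2
    obtain ⟨⟨c, hck⟩, hcs, hc⟩ := hs ⟨b, hb⟩
    obtain ⟨⟨⟨a, ha⟩, ha'⟩, hac⟩ := g.surjective ⟨⟨c, hck⟩, hcs⟩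
    have h7 := hb2 a ha'
    have ha'' : a < i := ha'
    simp only [f, dif_pos ha''] at h7
    rw [hac] at h7
    exact absurd h7 (not_lt.2 hc)
  · intro c hc
    have h5 : c.ord < δ.ord := ord_lt_ord.2 hc
    obtain ⟨⟨i, hi'⟩, hi2⟩ := Ordinal.typein_surj (α := Iio k) (· < ·)
      (h5.trans_le (ord_le_type _))
    have h6 : #(Iio (⟨i, hi'⟩ : Iio k)) = c := by
      have := congrArg Ordinal.card hi2
      rw [card_ord] at this
      rw [← this]
      rfl
    have h7 : #(Iio (⟨i, hi'⟩ : Iio k)) ≤ #(Iio i) := by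
      refine mk_le_of_injective (f := fun a => ⟨a.1.1, a.2⟩) ?_
      intro a b hab
      exact Subtype.ext (Subtype.ext (Subtype.mk.inj hab))
    rw [h6] at h7
    exact (power_le_power_left two_ne_zero h7).trans_lt (h1 i hi')

end Pool.Agent.Helper23.SC
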