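import Pool.Agent.Helper23.SC.Z1
import Pool.Agent.Helper63.WR.DefsM

/-! # Project SC: supercompact cardinals in the generic models -/

set_option autoImplicit false

namespace Pool.Agent.Helper23.SC

open Cardinal Filter Set Pool.Agent.Helper33.HM Pool.Agent.Helper33.HMG Pool.Agent.Helper32.HB
open Pool.Agent.Helper87.Sym (Fml cons Sat IsTransModelZF)
open Pool.Agent.Helper23.XB Pool.Agent.Helper63.WR

universe u

/-- Small forcing preserves supercompact cardinals: in almost all generic models over a poset of
cardinality less than the supercompact cardinal `κ`, the ordinal `κ` is supercompact. -/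
theorem ae_supercompact {P : Type u} [Preorder P] [OrderTop P] (κ : Cardinal.{u})
    (hκ : Supercompact κ) (hP : #P < κ) :
    ∀ᶠ g in aeM P, IsSupercompactIn g.M (g.val (onm κ.ord)) := by
  filter_upwards [ae_cl0 (P := P) (onm κ.ord)] with g hg
  have h1 : Sat g.M (fSC 0) (fun _ => g.val (onm κ.ord)) :=
    (g.truth (fSC 0) (v := fun _ => onm κ.ord) fun _ => hg).1
      ⟨0, fc_sc hκ hP (fun _ => onm κ.ord) 0 rfl (g.pc 0)⟩
  exact sat_sc g.g.isModel (fun _ => ⟨_, hg, rfl⟩) h1

end Pool.Agent.Helper23.SC
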