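import Pool.Agent.Helper23.SC.Defs
import Pool.Agent.Helper23.XB.E3
import Pool.Agent.Helper23.XB.E4
import Pool.Agent.Helper23.XB.E5b

/-! # Project SC, module C1 -/

set_option autoImplicit false

namespace Pool.Agent.Helper23.SC

open Cardinal Filter Set Pool.Agent.Helper33.HM Pool.Agent.Helper33.HMG Pool.Agent.Helper32.HB
open Pool.Agent.Helper87.Sym (Fml cons Sat IsTransModelZF)
open Pool.Agent.Helper23.XB

universe u


variable {P : Type u} [Preorder P] [OrderTop P] {κ : Cardinal.{u}}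

/-- C1: small forcing preserves cardinals. -/
theorem vCard_small (hκ : ℵ₀ ≤ κ) (hP : #P < κ) : vCard (onm κ.ord : Nm P) = ⊤ := by
  have hlim : vLim (onm κ.ord : Nm P) = ⊤ := vLim_onm _ (isSuccLimit_ord hκ)
  rw [vCard, vOrd_onm, hlim, top_inf_eq, top_inf_eq]
  apply RO.ext'
  intro p
  refine ⟨fun _ => RO.mem_top p, fun _ => ?_⟩
  rw [RO.mem_iInf]
  intro a
  rw [RO.mem_iInf]
  intro f
  rw [RO.mem_himp]
  intro q hq hqa
  rw [RO.mem_compl]
  intro r hr hrO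
  have hra := RO.mem_lower hr hqa
  rw [vm_onm, RO.mem_iSup] at hra
  obtain ⟨s, hs, i, hi⟩ := hra r le_rfl
  have hsO := H17b.vOnto_congr hi (RO.mem_lower hs hrO)
  set β : Ordinal.{u} := (Ordinal.ToType.toOrd i).1 with hβdef
  have hβ : β < κ.ord := (Ordinal.ToType.toOrd i).2
  obtain ⟨m1, m2⟩ := mx_onto (ν := β) (α := κ.ord) (onm κ.ord) f s (H17b.vSub_self _ s) hsO
  have hβc : β.card < κ := by rwa [← lt_ord]
  have hval : ∀ k : κ.ord.ToType, ∃ x : β.ToType × P, x.2 ≤ s ∧ x.2 ∈ mx f x.1 k := by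
    intro k
    have h1 := RO.mem_himp.1 (m2 k) s le_rfl (by
      rw [rlK, vm_onm_lt (Ordinal.ToType.toOrd k).2]
      exact RO.mem_top s)
    rw [RO.mem_iSup] at h1
    obtain ⟨w, hw, n, hn⟩ := h1 s le_rfl
    exact ⟨(n, w), hw, hn⟩
  choose φ hφ1 hφ2 using hval
  have hφi : Function.Injective φ := by
    intro k k' hkk
    by_contra hne
    have h1 := m1 (φ k).1 k k' hne
    exact RO.mem_compl.1 h1 (φ k).2 (hφ1 k) ⟨hφ2 k, hkk ▸ hφ2 k'⟩
  have h1 := mk_le_of_injective hφi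
  rw [mk_toType, card_ord, mk_prod, lift_id, lift_id, mk_toType] at h1
  exact absurd h1 (not_le.2 (mul_lt_of_lt hκ hβc hP))

/-- C1b -/
theorem vLim_omega (hκ : ℵ₀ < κ) : (⨆ w, vm w (onm κ.ord : Nm P) ⊓ vLim w) = ⊤ := by
  rw [eq_top_iff]
  refine le_trans ?_ (le_iSup _ (onm Ordinal.omega0 : Nm P))
  rw [vm_onm_lt (by rwa [lt_ord, Ordinal.card_omega0]), vLim_onm _ Ordinal.isSuccLimit_omega0,
    top_inf_eq]


end Pool.Agent.Helper23.SC
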