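import Pool.Agent.Helper23.SC.Final
import Pool.Agent.Helper23.XB.DefsA
import Pool.Agent.Helper23.XB.DefsE

/-!
# Small forcing preserves supercompact cardinals: formulas, values, names
-/

set_option autoImplicit false

namespace Pool.Agent.Helper23.SC

open Cardinal Filter Set Pool.Agent.Helper33.HM Pool.Agent.Helper33.HMG Pool.Agent.Helper32.HB
open Pool.Agent.Helper87.Sym (Fml cons Sat)
open Pool.Agent.Helper23.XB

universe u

/-! ### The formula -/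

/-- `x_p = P_{x_k}(x_x)` -/
def fPk (k x p : ℕ) : Fml :=
  .all (.iff (.mem 0 (p + 1)) (.and (fSub 0 (x + 1)) (.ex (.ex (.and (.mem 1 (k + 3))
    (fOnto 1 2 0))))))

/-- the elements of `x_U` are subsets of `x_p` -/
def fN1 (p U : ℕ) : Fml := .all (.imp (.mem 0 (U + 1)) (fSub 0 (p + 1)))

/-- upward closed -/
def fN2 (p U : ℕ) : Fml :=
  .all (.all (.imp (.and (.mem 1 (U + 2)) (.and (fSub 1 0) (fSub 0 (p + 2)))) (.mem 0 (U + 2))))

/-- ultra -/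
def fN3 (p U : ℕ) : Fml :=
  .all (.all (.imp (.and (fSub 1 (p + 2)) (.all (.iff (.mem 0 1) (.and (.mem 0 (p + 3))
    (.neg (.mem 0 2)))))) (.iff (.mem 1 (U + 2)) (.neg (.mem 0 (U + 2))))))

/-- fine -/
def fN4 (x p U : ℕ) : Fml :=
  .all (.all (.imp (.and (.mem 1 (x + 2)) (.all (.iff (.mem 0 1) (.and (.mem 0 (p + 3))
    (.mem 2 0))))) (.mem 0 (U + 2))))

/-- complete -/
def fN5 (k p U : ℕ) : Fml :=
  .all (.all (.all (.imp (.and (.mem 2 (k + 3)) (.and (fFun 2 (U + 3) 1)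
    (.all (.iff (.mem 0 1) (.and (.mem 0 (p + 4)) (.all (.imp (.ex (fPm 0 1 4)) (.mem 1 0)))))))) (.mem 0 (U + 3)))))

/-- normal -/
def fN6 (x p U : ℕ) : Fml :=
  .all (.all (.imp (.and (fFun (p + 2) (x + 2) 1) (.and (.all (.iff (.mem 0 1)
    (.and (.mem 0 (p + 3)) (.ex (.and (.mem 0 1) (fPm 1 0 3)))))) (.mem 0 (U + 2))))
    (.ex (.ex (.and (.mem 1 (x + 4)) (.and (.all (.iff (.mem 0 1) (.and (.mem 0 (p + 5))
      (fPm 0 2 4)))) (.mem 0 (U + 4))))))))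

def fNM (k x p U : ℕ) : Fml :=
  .and (fN1 p U) (.and (fN2 p U) (.and (fN3 p U) (.and (fN4 x p U) (.and (fN5 k p U)
    (fN6 x p U)))))

/-- `x_c` is a supercompact cardinal -/
def fSC (c : ℕ) : Fml :=
  .and (fCard c) (.and (.ex (.and (.mem 0 (c + 1)) (fLim 0)))
    (.all (.imp (.and (fOrd 0) (fSub (c + 1) 0)) (.ex (.ex (.and (fPk (c + 3) 2 1)
      (fNM (c + 3) 2 1 0)))))))

/-! ### The values -/

section Values

variable {P : Type u} [Preorder P]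

/-- `B = {y ∈ p | φ y}` -/
def vSep (B p : Nm P) (φ : Nm P → RO P) : RO P :=
  ⨅ y, ((vm y B ⇨ vm y p ⊓ φ y) ⊓ (vm y p ⊓ φ y ⇨ vm y B))

variable [OrderTop P]

/-- `y` is the image of an element of `k` -/
def vSmall (k y : Nm P) : RO P := ⨆ a, ⨆ f, vm a k ⊓ vOnto a y f

def vPk (k x p : Nm P) : RO P :=
  ⨅ y, ((vm y p ⇨ vSub y x ⊓ vSmall k y) ⊓ (vSub y x ⊓ vSmall k y ⇨ vm y p))

omit [OrderTop P] in
def vN1 (p U : Nm P) : RO P := ⨅ A, (vm A U ⇨ vSub A p)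

omit [OrderTop P] in
def vN2 (p U : Nm P) : RO P := ⨅ A, ⨅ B, (vm A U ⊓ (vSub A B ⊓ vSub B p) ⇨ vm B U)

omit [OrderTop P] in
def vN3 (p U : Nm P) : RO P :=
  ⨅ A, ⨅ B, (vSub A p ⊓ vSep B p (fun y => (vm y A)ᶜ) ⇨
    (vm A U ⇨ (vm B U)ᶜ) ⊓ ((vm B U)ᶜ ⇨ vm A U))

omit [OrderTop P] in
def vN4 (x p U : Nm P) : RO P := ⨅ i, ⨅ B, (vm i x ⊓ vSep B p (fun y => vm i y) ⇨ vm B U)

def vN5 (k p U : Nm P) : RO P :=
  ⨅ a, ⨅ f, ⨅ B, (vm a k ⊓ (vFun a U f ⊓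
    vSep B p (fun y => ⨅ z, ((⨆ i, vm (pairN i z) f) ⇨ vm y z))) ⇨ vm B U)

def vN6 (x p U : Nm P) : RO P :=
  ⨅ f, ⨅ B, (vFun p x f ⊓ (vSep B p (fun y => ⨆ i, vm i y ⊓ vm (pairN y i) f) ⊓ vm B U) ⇨
    ⨆ i, ⨆ C, vm i x ⊓ (vSep C p (fun y => vm (pairN y i) f) ⊓ vm C U))

def vNM (k x p U : Nm P) : RO P :=
  vN1 p U ⊓ (vN2 p U ⊓ (vN3 p U ⊓ (vN4 x p U ⊓ (vN5 k p U ⊓ vN6 x p U))))

def vSC (c : Nm P) : RO P :=
  vCard c ⊓ ((⨆ w, vm w c ⊓ vLim w) ⊓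
    ⨅ x, (vOrd x ⊓ vSub c x ⇨ ⨆ p, ⨆ U, vPk c x p ⊓ vNM c x p U))

end Values

/-! ### The names -/

section Names

variable {P : Type u} [Preorder P] [OrderTop P]

open Classical in
/-- The check name of the set `s`. -/
noncomputable def csN {α : Ordinal.{u}} (s : Set α.ToType) : Nm P :=
  nmK fun k => if k ∈ s then ⊤ else ⊥

/-- The name of `P_κ(α)`. -/
noncomputable def pkN (κ : Cardinal.{u}) (α : Ordinal.{u}) : Nm P :=
  ultN (α := α) fun x => vSmall (onm κ.ord) (nmK x)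

/-- The Boolean value of `A ∈ U` for `A ⊆ P_κ(α)`. -/
def wA {κ : Cardinal.{u}} {α : Ordinal.{u}} {F : Ultrafilter (Set α.ToType)}
    (hF : NF κ.ord.ToType F) (hP : #P < κ) (A : Nm P) : RO P where
  carrier := {p | ∀ᶠ s in (F : Filter (Set α.ToType)), p ∈ vm (csN s) A}
  lower _ hp _ hq := hp.mono fun _ h => RO.mem_lower hq h
  reg p h := by
    choose! r hr hr' using h
    have hc : #P < #κ.ord.ToType := by rwa [mk_toType, card_ord]
    have h1 := hF.complete {q : P // q ≤ p} (fun q => {s | r q.1 ∈ vm (csN s) A})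
      ((mk_subtype_le _).trans_lt hc) fun q => hr' q.1 q.2
    filter_upwards [h1] with s hs
    exact RO.mem_reg fun q hq => ⟨r q, hr q hq, mem_iInter.1 hs ⟨q, hq⟩⟩

/-- The name of the ultrafilter generated by `F`. -/
noncomputable def uN {κ : Cardinal.{u}} {α : Ordinal.{u}} {F : Ultrafilter (Set α.ToType)}
    (hF : NF κ.ord.ToType F) (hP : #P < κ) : Nm P :=
  .mk {y : ((α.ToType → RO P) → RO P) × P //
      y.2 ∈ vSub (ultN y.1) (pkN κ α) ⊓ wA hF hP (ultN y.1)}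
    (fun y => ultN y.1.1) (fun y => y.1.2)

end Names

end Pool.Agent.Helper23.SC
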