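import Pool.Agent.Helper23.XB.Final

/-!
# Supercompact cardinals in a transitive model

The relativised definition: `k` is an uncountable cardinal of `M` and for every ordinal `x ≥ k` of
`M` there is, in `M`, a `k`-complete fine normal ultrafilter on `P_k(x)`.
-/

set_option autoImplicit false

namespace Pool.Agent.Helper23.SC

open Pool.Agent.Helper23.XB

/-- `p` is `P_k(x)` in `M`: its elements are the subsets of `x` in `M` which are images of elements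
of `k` under functions in `M`. -/
def IsPkIn (M : Set ZFSet.{0}) (k x p : ZFSet.{0}) : Prop :=
  p ∈ M ∧ ∀ y, y ∈ p ↔ y ∈ M ∧ y ⊆ x ∧ ∃ a ∈ k, ∃ f ∈ M, Onto a y f

/-- `U` is, in `M`, a `k`-complete fine normal ultrafilter on `p = P_k(x)`. -/
structure IsNormalIn (M : Set ZFSet.{0}) (k x p U : ZFSet.{0}) : Prop where
  mem : U ∈ M
  sub : ∀ A ∈ U, A ⊆ p
  up : ∀ A ∈ U, ∀ B ∈ M, A ⊆ B → B ⊆ p → B ∈ U
  ultra : ∀ A ∈ M, A ⊆ p → (A ∈ U ↔ p \ A ∉ U)
  fine : ∀ i ∈ x, ZFSet.sep (fun y => i ∈ y) p ∈ U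
  /-- the intersection of less than `k` elements of `U` belongs to `U` -/
  complete : ∀ a ∈ k, ∀ f ∈ M, ZFSet.IsFunc a U f →
    ZFSet.sep (fun y => ∀ z, (∃ i, ZFSet.pair i z ∈ f) → y ∈ z) p ∈ U
  /-- a regressive function is constant on an element of `U` -/
  normal : ∀ f ∈ M, ZFSet.IsFunc p x f →
    ZFSet.sep (fun y => ∃ i ∈ y, ZFSet.pair y i ∈ f) p ∈ U →
    ∃ i ∈ x, ZFSet.sep (fun y => ZFSet.pair y i ∈ f) p ∈ U

/-- `k` is a supercompact cardinal in `M`. -/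
def IsSupercompactIn (M : Set ZFSet.{0}) (k : ZFSet.{0}) : Prop :=
  k ∈ M ∧ IsCardIn M k ∧ ZFSet.omega ∈ k ∧
    ∀ x ∈ M, x.IsOrdinal → k ⊆ x → ∃ p U, IsPkIn M k x p ∧ IsNormalIn M k x p U

end Pool.Agent.Helper23.SC
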