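import Pool.Agent.Helper23.SC.Defs
import Pool.Agent.Helper23.XB.E2b
import Pool.Agent.Helper23.XB.E2c

/-! # Project SC, module N1 -/

set_option autoImplicit false

namespace Pool.Agent.Helper23.SC

open Cardinal Filter Set Pool.Agent.Helper33.HM Pool.Agent.Helper33.HMG Pool.Agent.Helper32.HB
open Pool.Agent.Helper87.Sym (Fml cons Sat IsTransModelZF)
open Pool.Agent.Helper23.XB

universe u


variable {P : Type u} [Preorder P] [OrderTop P] {κ : Cardinal.{u}} {α : Ordinal.{u}}

open Classical in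
/-- N1a -/
theorem vm_onm_csN (s : Set α.ToType) (k : α.ToType) :
    vm (onm (Ordinal.ToType.toOrd k).1) (csN s : Nm P) = if k ∈ s then ⊤ else ⊥ := by
  rw [csN, vm_onm_nmK]

/-- N1b -/
theorem vSub_csN (s : Set α.ToType) : vSub (csN s : Nm P) (onm α) = ⊤ := by
  rw [csN, vSub_nmK]

/-- N1c: the elements of a check name. -/
theorem vm_csN (s : Set α.ToType) (σ : Nm P) :
    vm σ (csN s) = ⨆ k : s, veq σ (onm (Ordinal.ToType.toOrd k.1).1) := by
  classical
  rw [csN, vm_nmK]
  apply le_antisymm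
  · refine iSup_le fun k => ?_
    by_cases hk : k ∈ s
    · rw [if_pos hk, inf_top_eq]
      exact le_iSup (fun k : s => veq σ (onm (Ordinal.ToType.toOrd k.1).1)) ⟨k, hk⟩
    · rw [if_neg hk, inf_bot_eq]
      exact bot_le
  · refine iSup_le fun k => ?_
    refine le_trans ?_ (le_iSup _ k.1)
    rw [if_pos k.2, inf_top_eq]

/-- N1d: small sets are small in the extension. -/
theorem vSmall_csN (s : Set α.ToType) (hs : #s < κ) : vSmall (onm κ.ord) (csN s : Nm P) = ⊤ := by
  classical
  have hβ : (#s).ord < κ.ord := ord_lt_ord.2 hs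
  have hc : #((#s).ord.ToType) = #s := by rw [mk_toType, card_ord]
  obtain ⟨e⟩ := Cardinal.eq.1 hc
  set h : (#s).ord.ToType → Nm P := fun i => onm (Ordinal.ToType.toOrd (e i).1).1 with hh
  rw [eq_top_iff, vSmall]
  refine le_trans ?_ (le_iSup _ (onm (#s).ord))
  refine le_trans ?_ (le_iSup _ (fnN h))
  rw [vm_onm_lt hβ, top_inf_eq, vOnto]
  refine le_inf ?_ ?_
  · refine le_trans ?_ (vFun_fnN h _)
    refine le_iInf fun i => ?_
    rw [hh]
    simp only
    rw [vm_onm_csN, if_pos (e i).2]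
  · refine le_iInf fun y => ?_
    rw [le_himp_iff, top_inf_eq, vm_csN]
    refine iSup_le fun k => ?_
    refine le_trans ?_ (le_iSup _ (onm (Ordinal.ToType.toOrd (e.symm k)).1))
    rw [vm_onm_lt (Ordinal.ToType.toOrd (e.symm k)).2, top_inf_eq, vm_pair_fnN]
    simp [hh]

end Pool.Agent.Helper23.SC
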