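import Pool.Agent.Helper23.SC.N1
import Pool.Agent.Helper23.XB.E2c

/-! # Project SC, module N2 -/

set_option autoImplicit false

namespace Pool.Agent.Helper23.SC

open Cardinal Filter Set Pool.Agent.Helper33.HM Pool.Agent.Helper33.HMG Pool.Agent.Helper32.HB
open Pool.Agent.Helper87.Sym (Fml cons Sat IsTransModelZF)
open Pool.Agent.Helper23.XB

universe u


variable {P : Type u} [Preorder P] [OrderTop P] {κ : Cardinal.{u}} {α : Ordinal.{u}}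

/-- congruence of `vOnto` in the second argument -/
private theorem vOnto_congr_mid {a c c' f : Nm P} {p : P} (h : p ∈ veq c c')
    (h' : p ∈ vOnto a c f) : p ∈ vOnto a c' f := by
  have h1 : ∀ q, q ≤ p → ∀ x : Nm P, q ∈ vm x c → q ∈ vm x c' := fun q hq x hx =>
    vm_congr_right x c c' q ⟨RO.mem_lower hq h, hx⟩
  have hs : p ∈ veq c' c := by rw [veq_comm]; exact h
  have h2 : ∀ q, q ≤ p → ∀ x : Nm P, q ∈ vm x c' → q ∈ vm x c := fun q hq x hx =>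
    vm_congr_right x c' c q ⟨RO.mem_lower hq hs, hx⟩
  obtain ⟨⟨⟨hf1, hf2⟩, hf3⟩, ho⟩ := h'
  refine ⟨⟨⟨?_, hf2⟩, hf3⟩, ?_⟩
  · rw [← RO.mem_def, RO.mem_iInf] at hf1 ⊢
    intro z
    rw [RO.mem_himp]
    intro q hq hz
    have := RO.mem_himp.1 (hf1 z) q hq hz
    rw [RO.mem_iSup] at this ⊢
    intro r hr
    obtain ⟨s, hs, x, hx⟩ := this r hr
    refine ⟨s, hs, x, ?_⟩
    rw [RO.mem_iSup] at hx ⊢
    intro t ht
    obtain ⟨w, hw, y, hy⟩ := hx t ht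
    exact ⟨w, hw, y, ⟨⟨hy.1.1, h1 w (hw.trans (ht.trans (hs.trans (hr.trans hq)))) y hy.1.2⟩,
      hy.2⟩⟩
  · rw [← RO.mem_def, RO.mem_iInf] at ho ⊢
    intro y
    rw [RO.mem_himp]
    intro q hq hy
    exact RO.mem_himp.1 (ho y) q hq (h2 q hq y hy)

/-- N2a -/
theorem vSmall_congr (k y y' : Nm P) : veq y y' ⊓ vSmall k y ≤ vSmall k y' := by
  intro p hp
  obtain ⟨hp1, hp2⟩ := hp
  rw [← RO.mem_def] at hp1 hp2
  unfold vSmall at hp2 ⊢
  rw [RO.mem_iSup] at hp2 ⊢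
  intro q hq
  obtain ⟨r, hr, a, ha⟩ := hp2 q hq
  refine ⟨r, hr, a, ?_⟩
  rw [RO.mem_iSup] at ha ⊢
  intro s hs
  obtain ⟨t, ht, f, hf⟩ := ha s hs
  exact ⟨t, ht, f, hf.1, vOnto_congr_mid (RO.mem_lower (ht.trans (hs.trans (hr.trans hq))) hp1)
    hf.2⟩

private theorem vSub_of_veq {σ τ b : Nm P} {p : P} (h : p ∈ veq σ τ) (h' : p ∈ vSub τ b) :
    p ∈ vSub σ b := by
  unfold vSub at h' ⊢
  rw [RO.mem_iInf] at h' ⊢
  intro x
  rw [RO.mem_himp]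
  intro q hq hx
  exact RO.mem_himp.1 (h' x) q hq (vm_congr_right x σ τ q ⟨RO.mem_lower hq h, hx⟩)

/-- N2b -/
theorem vm_pkN (σ : Nm P) :
    vm σ (pkN κ α) = vSub σ (onm α) ⊓ vSmall (onm κ.ord) σ := by
  apply RO.ext'
  intro p
  constructor
  · intro hp
    rw [pkN, ultN, vm_mk] at hp
    constructor
    · refine RO.mem_reg fun q hq => ?_
      obtain ⟨r, hr, ⟨⟨x, r'⟩, hr'⟩, h1, h2⟩ := hp q hq
      refine ⟨r, hr, vSub_of_veq h2 ?_⟩
      rw [vSub_nmK]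
      exact RO.mem_top r
    · refine RO.mem_reg fun q hq => ?_
      obtain ⟨r, hr, ⟨⟨x, r'⟩, hr'⟩, h1, h2⟩ := hp q hq
      refine ⟨r, hr, vSmall_congr _ _ _ r ⟨?_, RO.mem_lower h1 hr'⟩⟩
      have h3 : r ∈ veq (nmK x) σ := by rw [veq_comm]; exact h2
      exact h3
  · rintro ⟨h1, h2⟩
    have h3 := vSub_le_veq σ p h1
    have h4 := vSmall_congr _ _ _ p ⟨h3, h2⟩
    rw [pkN, ultN, vm_mk]
    intro q hq
    exact ⟨q, le_rfl, ⟨(fun k : α.ToType => vm (onm (Ordinal.ToType.toOrd k).1) σ, q),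
      RO.mem_lower hq h4⟩, le_rfl, RO.mem_lower hq h3⟩

/-- N2c -/
theorem vPk_pkN : vPk (onm κ.ord) (onm α) (pkN κ α : Nm P) = ⊤ := by
  unfold vPk
  simp only [vm_pkN, himp_self, inf_top_eq, iInf_top]

/-- N2d -/
theorem vm_csN_pkN (s : Set α.ToType) (hs : #s < κ) : vm (csN s) (pkN κ α : Nm P) = ⊤ := by
  rw [vm_pkN, vSub_csN, vSmall_csN s hs, inf_top_eq]


end Pool.Agent.Helper23.SC
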