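import Pool.Agent.Helper23.SC.N2

/-! # Project SC, module N3 -/

set_option autoImplicit false

namespace Pool.Agent.Helper23.SC

open Cardinal Filter Set Pool.Agent.Helper33.HM Pool.Agent.Helper33.HMG Pool.Agent.Helper32.HB
open Pool.Agent.Helper87.Sym (Fml cons Sat IsTransModelZF)
open Pool.Agent.Helper23.XB

universe u


variable {P : Type u} [Preorder P] [OrderTop P] {κ : Cardinal.{u}} {α : Ordinal.{u}}
  {F : Ultrafilter (Set α.ToType)}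

private theorem h90_vl {σ σ' τ : Nm P} {p : P} (h : p ∈ veq σ σ') (h' : p ∈ vm σ τ) :
    p ∈ vm σ' τ := vm_congr_left σ σ' τ p ⟨h, h'⟩

private theorem h90_vr {σ τ τ' : Nm P} {p : P} (h : p ∈ veq τ τ') (h' : p ∈ vm σ τ) :
    p ∈ vm σ τ' := vm_congr_right σ τ τ' p ⟨h, h'⟩

private theorem h90_vs {σ τ : Nm P} {p : P} (h : p ∈ veq σ τ) : p ∈ veq τ σ := by
  rwa [veq_comm]

private theorem h90_sub {σ σ' τ : Nm P} {p : P} (h : p ∈ veq σ σ') (h' : p ∈ vSub σ τ) :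
    p ∈ vSub σ' τ := by
  refine RO.mem_iInf.2 fun ρ => ?_
  rw [RO.mem_himp]
  intro q hq hρ
  exact RO.mem_himp.1 (RO.mem_iInf.1 h' ρ) q hq (h90_vr (h90_vs (RO.mem_lower hq h)) hρ)

/-- N3a -/
theorem mem_wA (hF : NF κ.ord.ToType F) (hP : #P < κ) (A : Nm P) (p : P) :
    p ∈ wA hF hP A ↔ ∀ᶠ s in (F : Filter (Set α.ToType)), p ∈ vm (csN s) A := Iff.rfl

/-- N3b -/
theorem mem_compl_wA (hF : NF κ.ord.ToType F) (hP : #P < κ) (A : Nm P) (p : P) :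
    p ∈ (wA hF hP A)ᶜ ↔ ∀ᶠ s in (F : Filter (Set α.ToType)), p ∈ (vm (csN s) A)ᶜ := by
  rw [RO.mem_compl]
  constructor
  · intro h
    have hc : #P < #κ.ord.ToType := by rwa [mk_toType, card_ord]
    have h1 := hF.complete {q : P // q ≤ p} (fun q => {s | ¬ q.1 ∈ vm (csN s) A})
      ((mk_subtype_le _).trans_lt hc) fun q => Ultrafilter.eventually_not.2 (h q.1 q.2)
    filter_upwards [h1] with s hs
    exact RO.mem_compl.2 fun q hq => mem_iInter.1 hs ⟨q, hq⟩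
  · intro h q hq hqA
    have h1 : ∀ᶠ s in (F : Filter (Set α.ToType)), q ∈ vm (csN s) A := hqA
    obtain ⟨s, hs, hs'⟩ := (h.and h1).exists
    exact RO.mem_compl.1 hs q hq hs'

/-- N3c -/
theorem wA_congr (hF : NF κ.ord.ToType F) (hP : #P < κ) (A B : Nm P) :
    veq A B ⊓ wA hF hP A ≤ wA hF hP B := by
  rintro p ⟨h, h'⟩
  have h1 : ∀ᶠ s in (F : Filter (Set α.ToType)), p ∈ vm (csN s) A := h'
  exact h1.mono fun s hs => h90_vr h hs

/-- N3d: every subset of `P_κ(α)` has a name of the form `ultN X`. -/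
theorem veq_ultN (A : Nm P) :
    vSub A (pkN κ α) ≤ veq A (ultN fun x : α.ToType → RO P => vm (nmK x) A) := by
  intro p hp
  refine veq_of_vSub _ _ p ⟨?_, ?_⟩
  · refine RO.mem_iInf.2 fun σ => ?_
    rw [RO.mem_himp]
    intro q hq hσ
    have h1 : q ∈ vm σ (pkN κ α) := RO.mem_himp.1 (RO.mem_iInf.1 hp σ) q hq hσ
    rw [vm_pkN] at h1
    have h2 : q ∈ veq σ (nmK (rlK σ)) := vSub_le_veq σ q h1.1
    rw [ultN, vm_mk]
    intro r hr
    exact ⟨r, le_rfl, ⟨(rlK σ, r), RO.mem_lower hr (h90_vl h2 hσ)⟩, le_rfl, RO.mem_lower hr h2⟩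
  · refine RO.mem_iInf.2 fun σ => ?_
    rw [RO.mem_himp]
    intro q hq hσ
    rw [ultN, vm_mk] at hσ
    refine RO.mem_reg fun r hr => ?_
    obtain ⟨s, hs, y, hy, hy'⟩ := hσ r hr
    exact ⟨s, hs, h90_vl (h90_vs hy') (RO.mem_lower hy y.2)⟩

/-- N3e -/
theorem vm_uN (hF : NF κ.ord.ToType F) (hP : #P < κ) (A : Nm P) :
    vm A (uN hF hP) = vSub A (pkN κ α) ⊓ wA hF hP A := by
  apply RO.ext'
  intro p
  rw [uN, vm_mk]
  constructor
  · intro hp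
    refine ⟨RO.mem_reg fun q hq => ?_, RO.mem_reg fun q hq => ?_⟩
    · obtain ⟨r, hr, y, hy, hy'⟩ := hp q hq
      exact ⟨r, hr, h90_sub (h90_vs hy') (RO.mem_lower hy y.2.1)⟩
    · obtain ⟨r, hr, y, hy, hy'⟩ := hp q hq
      exact ⟨r, hr, wA_congr hF hP _ _ r ⟨h90_vs hy', RO.mem_lower hy y.2.2⟩⟩
  · rintro ⟨h1, h2⟩ q hq
    have h3 := veq_ultN A p h1
    refine ⟨q, le_rfl, ⟨((fun x : α.ToType → RO P => vm (nmK x) A), q), ?_⟩, le_rfl,
      RO.mem_lower hq h3⟩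
    exact ⟨RO.mem_lower hq (h90_sub h3 h1), RO.mem_lower hq (wA_congr hF hP _ _ p ⟨h3, h2⟩)⟩


end Pool.Agent.Helper23.SC
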