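import Pool.Agent.Helper23.SC.Defs
import Pool.Agent.Helper23.XB.E1a

/-! # Project SC, module S1 -/

set_option autoImplicit false

namespace Pool.Agent.Helper23.SC

open Cardinal Filter Set Pool.Agent.Helper33.HM Pool.Agent.Helper33.HMG Pool.Agent.Helper32.HB
open Pool.Agent.Helper87.Sym (Fml cons Sat IsTransModelZF)
open Pool.Agent.Helper23.XB

universe u


variable {M : Set ZFSet.{0}} {v : ℕ → ZFSet.{0}}

open Pool.Agent.Helper87.Sym in
/-- S1 -/
theorem sat_fPk (hM : IsTransModelZF M) {k x p : ℕ} (hk : v k ∈ M) (hx : v x ∈ M) (hp : v p ∈ M)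
    (h : Sat M (fPk k x p) v) : IsPkIn M (v k) (v x) (v p) := by
  have h0 : ∀ y, y ∈ M → (y ∈ v p ↔ y ⊆ v x ∧ ∃ a, a ∈ M ∧ ∃ f, f ∈ M ∧ (a ∈ v k ∧
      Onto a y f)) := by
    intro y hy
    have h1 := h y hy
    rw [Sat_iff, Sat_and, Sat_ex] at h1
    refine h1.trans (and_congr
      (E1aAux.sat_fSub hM (v := cons y v) (i := 0) (j := x + 1) hy) ?_)
    refine exists_congr fun a => and_congr_right fun ha => ?_
    rw [Sat_ex]
    refine exists_congr fun f => and_congr_right fun hf => ?_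
    rw [Sat_and]
    exact and_congr Iff.rfl (E1aAux.sat_fOnto hM (v := cons f (cons a (cons y v))) (a := 1)
      (b := 2) (f := 0) ha hy hf)
  refine ⟨hp, fun y => ⟨fun hy => ?_, ?_⟩⟩
  · have hyM := hM.trans _ hp y hy
    obtain ⟨h1, a, -, f, hf, ha, ho⟩ := (h0 y hyM).1 hy
    exact ⟨hyM, h1, a, ha, f, hf, ho⟩
  · rintro ⟨hyM, h1, a, ha, f, hf, ho⟩
    exact (h0 y hyM).2 ⟨h1, a, hM.trans _ hk a ha, f, hf, ha, ho⟩

end Pool.Agent.Helper23.SC
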