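import Pool.Agent.Helper23.SC.Defs
import Pool.Agent.Helper23.XB.E1a

/-! # Project SC, module S2 -/

set_option autoImplicit false

namespace Pool.Agent.Helper23.SC

open Cardinal Filter Set Pool.Agent.Helper33.HM Pool.Agent.Helper33.HMG Pool.Agent.Helper32.HB
open Pool.Agent.Helper87.Sym (Fml cons Sat IsTransModelZF)
open Pool.Agent.Helper23.XB

universe u


variable {M : Set ZFSet.{0}} {v : ℕ → ZFSet.{0}}

/-- S2: separation with parameters. -/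
theorem sep_mem (hM : IsTransModelZF M) (φ : Fml) (hv : ∀ i, v i ∈ M) {p : ℕ} :
    ZFSet.sep (fun y => Sat M φ (cons y v)) (v p) ∈ M := by
  obtain ⟨z, hz, h⟩ := hM.sep φ v hv (v p) (hv p)
  have h1 : ZFSet.sep (fun y => Sat M φ (cons y v)) (v p) = z := by
    ext w
    rw [ZFSet.mem_sep, h]
  rw [h1]
  exact hz

namespace S2Aux

open Pool.Agent.Helper87.Sym

theorem cons_mem {x : ZFSet.{0}} (hx : x ∈ M) (hv : ∀ i, v i ∈ M) : ∀ i, cons x v i ∈ M := by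
  intro i
  cases i with
  | zero => exact hx
  | succ i => exact hv i

end S2Aux

open Pool.Agent.Helper87.Sym in
/-- S2a -/
theorem sat_fN1 (hM : IsTransModelZF M) (hv : ∀ i, v i ∈ M) {p U : ℕ}
    (h : Sat M (fN1 p U) v) : ∀ A ∈ v U, A ⊆ v p := by
  intro A hA
  have hAM := hM.trans _ (hv U) A hA
  exact (E1aAux.sat_fSub hM (v := cons A v) (i := 0) (j := p + 1) hAM).1 (h A hAM hA)

open Pool.Agent.Helper87.Sym in
/-- S2b -/
theorem sat_fN2 (hM : IsTransModelZF M) (hv : ∀ i, v i ∈ M) {p U : ℕ}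
    (h : Sat M (fN2 p U) v) : ∀ A ∈ v U, ∀ B ∈ M, A ⊆ B → B ⊆ v p → B ∈ v U := by
  intro A hA B hB hAB hBp
  have hAM := hM.trans _ (hv U) A hA
  refine h A hAM B hB (Sat_and.2 ⟨hA, Sat_and.2 ⟨?_, ?_⟩⟩)
  · exact (E1aAux.sat_fSub hM (v := cons B (cons A v)) (i := 1) (j := 0) hAM).2 hAB
  · exact (E1aAux.sat_fSub hM (v := cons B (cons A v)) (i := 0) (j := p + 2) hB).2 hBp

open Pool.Agent.Helper87.Sym in
/-- S2c -/
theorem sat_fN3 (hM : IsTransModelZF M) (hv : ∀ i, v i ∈ M) {p U : ℕ}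
    (h : Sat M (fN3 p U) v) : ∀ A ∈ M, A ⊆ v p → (A ∈ v U ↔ v p \ A ∉ v U) := by
  intro A hA hAp
  have hB := E1aAux.diff_mem hM (hv p) hA
  have h1 := h A hA (v p \ A) hB (Sat_and.2 ⟨(E1aAux.sat_fSub hM
    (v := cons (v p \ A) (cons A v)) (i := 1) (j := p + 2) hA).2 hAp, by
      intro w _
      rw [Sat_iff, Sat_and]
      exact ZFSet.mem_sdiff⟩)
  rw [Sat_iff] at h1
  exact h1

open Pool.Agent.Helper87.Sym in
/-- S2d -/
theorem sat_fN4 (hM : IsTransModelZF M) (hv : ∀ i, v i ∈ M) {x p U : ℕ}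
    (h : Sat M (fN4 x p U) v) : ∀ i ∈ v x, ZFSet.sep (fun y => i ∈ y) (v p) ∈ v U := by
  intro i hi
  have hiM := hM.trans _ (hv x) i hi
  have hB : ZFSet.sep (fun y => i ∈ y) (v p) ∈ M :=
    sep_mem hM (v := cons i v) (.mem 1 0) (S2Aux.cons_mem hiM hv) (p := p + 1)
  refine h i hiM _ hB (Sat_and.2 ⟨hi, ?_⟩)
  intro w _
  rw [Sat_iff, Sat_and]
  change w ∈ ZFSet.sep (fun y => i ∈ y) (v p) ↔ w ∈ v p ∧ i ∈ w
  exact ZFSet.mem_sep


end Pool.Agent.Helper23.SC
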