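import Pool.Agent.Helper23.SC.S2

/-! # Project SC, module S3 -/

set_option autoImplicit false

namespace Pool.Agent.Helper23.SC

open Cardinal Filter Set Pool.Agent.Helper33.HM Pool.Agent.Helper33.HMG Pool.Agent.Helper32.HB
open Pool.Agent.Helper87.Sym (Fml cons Sat IsTransModelZF)
open Pool.Agent.Helper23.XB

universe u


variable {M : Set ZFSet.{0}} {v : ℕ → ZFSet.{0}}

namespace S3Aux

open Pool.Agent.Helper87.Sym Pool.Agent.Helper23.XB.E1aAux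

theorem cons_mem {x : ZFSet.{0}} (hx : x ∈ M) (hv : ∀ i, v i ∈ M) : ∀ i, cons x v i ∈ M := by
  intro i
  cases i
  · exact hx
  · exact hv _

theorem key5 (hM : IsTransModelZF M) {w : ℕ → ZFSet.{0}} {j : ℕ} (hw : w j ∈ M) {y : ZFSet.{0}}
    (hy : y ∈ M) : Sat M (.all (.imp (.ex (fPm 0 1 (j + 3))) (.mem 1 0))) (cons y w) ↔
      ∀ z, (∃ i, ZFSet.pair i z ∈ w j) → y ∈ z := by
  constructor
  · rintro h z ⟨i, hi⟩
    have hiz := of_pair_mem hM hw hi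
    exact h z hiz.2 (Sat_ex.2 ⟨i, hiz.1, (sat_fPm hM (v := cons i (cons z (cons y w))) (i := 0)
      (j := 1) (f := j + 3) hiz.1 hiz.2 hw).2 hi⟩)
  · intro h z hz hs
    obtain ⟨i, hi, hi2⟩ := Sat_ex.1 hs
    exact h z ⟨i, (sat_fPm hM (v := cons i (cons z (cons y w))) (i := 0)
      (j := 1) (f := j + 3) hi hz hw).1 hi2⟩

theorem key6 (hM : IsTransModelZF M) {w : ℕ → ZFSet.{0}} {j : ℕ} (hw : w j ∈ M) {y : ZFSet.{0}}
    (hy : y ∈ M) : Sat M (.ex (.and (.mem 0 1) (fPm 1 0 (j + 2)))) (cons y w) ↔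
      ∃ i ∈ y, ZFSet.pair y i ∈ w j := by
  rw [Sat_ex]
  constructor
  · rintro ⟨i, hi, h⟩
    rw [Sat_and] at h
    exact ⟨i, h.1, (sat_fPm hM (v := cons i (cons y w)) (i := 1) (j := 0) (f := j + 2)
      hy hi hw).1 h.2⟩
  · rintro ⟨i, hi, h⟩
    have hiM := hM.trans _ hy i hi
    exact ⟨i, hiM, Sat_and.2 ⟨hi, (sat_fPm hM (v := cons i (cons y w)) (i := 1) (j := 0)
      (f := j + 2) hy hiM hw).2 h⟩⟩

end S3Aux

open S3Aux Pool.Agent.Helper87.Sym Pool.Agent.Helper23.XB.E1aAux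

/-- S3a -/
theorem sat_fN5 (hM : IsTransModelZF M) (hv : ∀ i, v i ∈ M) {k p U : ℕ}
    (h : Sat M (fN5 k p U) v) : ∀ a ∈ v k, ∀ f ∈ M, ZFSet.IsFunc a (v U) f →
      ZFSet.sep (fun y => ∀ z, (∃ i, ZFSet.pair i z ∈ f) → y ∈ z) (v p) ∈ v U := by
  intro a ha f hf hfun
  have haM := hM.trans _ (hv k) a ha
  obtain ⟨B, hBe⟩ : ∃ B, B = ZFSet.sep (fun y => ∀ z, (∃ i, ZFSet.pair i z ∈ f) → y ∈ z) (v p) :=
    ⟨_, rfl⟩
  have hB : B ∈ M := by
    have h2 := sep_mem hM (.all (.imp (.ex (fPm 0 1 (0 + 3))) (.mem 1 0))) (v := cons f v)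
      (cons_mem hf hv) (p := p + 1)
    have h3 : ZFSet.sep (fun y => Sat M (.all (.imp (.ex (fPm 0 1 (0 + 3))) (.mem 1 0)))
        (cons y (cons f v))) (v p) = B := by
      ext y
      rw [hBe, ZFSet.mem_sep, ZFSet.mem_sep]
      exact and_congr_right fun hy => key5 hM (w := cons f v) (j := 0) hf
        (hM.trans _ (hv p) y hy)
    rw [← h3]
    exact h2
  rw [← hBe]
  refine h a haM f hf B hB (Sat_and.2 ⟨ha, Sat_and.2 ⟨(sat_fFun hM
    (v := cons B (cons f (cons a v))) (a := 2) (b := U + 3) (f := 1) haM (hv U) hf).2 hfun, ?_⟩⟩)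
  intro y hy
  rw [Sat_iff, Sat_and]
  refine Iff.trans (b := y ∈ v p ∧ ∀ z, (∃ i, ZFSet.pair i z ∈ f) → y ∈ z) ?_
    (and_congr Iff.rfl (key5 hM (w := cons B (cons f (cons a v))) (j := 1) hf hy).symm)
  show y ∈ B ↔ _
  rw [hBe, ZFSet.mem_sep]

/-- S3b -/
theorem sat_fN6 (hM : IsTransModelZF M) (hv : ∀ i, v i ∈ M) {x p U : ℕ}
    (h : Sat M (fN6 x p U) v) : ∀ f ∈ M, ZFSet.IsFunc (v p) (v x) f →
      ZFSet.sep (fun y => ∃ i ∈ y, ZFSet.pair y i ∈ f) (v p) ∈ v U →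
      ∃ i ∈ v x, ZFSet.sep (fun y => ZFSet.pair y i ∈ f) (v p) ∈ v U := by
  intro f hf hfun hU
  obtain ⟨B, hBe⟩ : ∃ B, B = ZFSet.sep (fun y => ∃ i ∈ y, ZFSet.pair y i ∈ f) (v p) := ⟨_, rfl⟩
  rw [← hBe] at hU
  have hB : B ∈ M := hM.trans _ (hv U) B hU
  have h1 := h f hf B hB (Sat_and.2 ⟨(sat_fFun hM (v := cons B (cons f v)) (a := p + 2)
    (b := x + 2) (f := 1) (hv p) (hv x) hf).2 hfun, Sat_and.2 ⟨by
      intro y hy
      rw [Sat_iff, Sat_and]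
      refine Iff.trans (b := y ∈ v p ∧ ∃ i ∈ y, ZFSet.pair y i ∈ f) ?_
        (and_congr Iff.rfl (key6 hM (w := cons B (cons f v)) (j := 1) hf hy).symm)
      show y ∈ B ↔ _
      rw [hBe, ZFSet.mem_sep], hU⟩⟩)
  rw [Sat_ex] at h1
  obtain ⟨i, hi, h1⟩ := h1
  rw [Sat_ex] at h1
  obtain ⟨C, hC, h1⟩ := h1
  rw [Sat_and, Sat_and] at h1
  obtain ⟨h2, h3, h4⟩ := h1
  refine ⟨i, h2, ?_⟩
  have h5 : ZFSet.sep (fun y => ZFSet.pair y i ∈ f) (v p) = C := by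
    ext y
    rw [ZFSet.mem_sep]
    constructor
    · rintro ⟨h6, h7⟩
      have hyM := hM.trans _ (hv p) y h6
      have h8 := h3 y hyM
      rw [Sat_iff, Sat_and] at h8
      exact h8.2 ⟨h6, (sat_fPm hM (v := cons y (cons C (cons i (cons B (cons f v))))) (i := 0)
        (j := 2) (f := 4) hyM hi hf).2 h7⟩
    · intro h6
      have hyM := hM.trans _ hC y h6
      have h8 := h3 y hyM
      rw [Sat_iff, Sat_and] at h8
      have h9 := h8.1 h6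
      exact ⟨h9.1, (sat_fPm hM (v := cons y (cons C (cons i (cons B (cons f v))))) (i := 0)
        (j := 2) (f := 4) hyM hi hf).1 h9.2⟩
  rw [h5]
  exact h4


end Pool.Agent.Helper23.SC
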