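import Pool.Agent.Helper23.SC.S1
import Pool.Agent.Helper23.SC.S2
import Pool.Agent.Helper23.SC.S3
import Pool.Agent.Helper23.XB.E1a

/-! # Project SC, module S4 -/

set_option autoImplicit false

namespace Pool.Agent.Helper23.SC

open Cardinal Filter Set Pool.Agent.Helper33.HM Pool.Agent.Helper33.HMG Pool.Agent.Helper32.HB
open Pool.Agent.Helper87.Sym (Fml cons Sat IsTransModelZF)
open Pool.Agent.Helper23.XB

universe u

namespace S4Aux

open Pool.Agent.Helper87.Sym

theorem mem_omega {x : ZFSet.{0}} (hx : x ∈ ZFSet.omega) :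
    ∃ n : ℕ, x = ZFSet.mk (PSet.ofNat n) := by
  obtain ⟨y, rfl⟩ := Quotient.exists_rep x
  obtain ⟨⟨n⟩, hn⟩ : y ∈ PSet.omega := hx
  exact ⟨n, ZFSet.sound hn⟩

theorem mk_succ (n : ℕ) : ZFSet.mk.{0} (PSet.ofNat (n + 1)) =
    insert (ZFSet.mk (PSet.ofNat n)) (ZFSet.mk (PSet.ofNat n)) := rfl

theorem mk_mem_omega (n : ℕ) : ZFSet.mk.{0} (PSet.ofNat n) ∈ ZFSet.omega := by
  induction n with
  | zero => exact ZFSet.omega_zero
  | succ n ih => exact ZFSet.omega_succ ih

theorem mk_ordinal (n : ℕ) : (ZFSet.mk.{0} (PSet.ofNat n)).IsOrdinal := by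
  induction n with
  | zero => exact ZFSet.isOrdinal_empty
  | succ n ih => exact ZFSet.isOrdinal_succ ih

theorem omega_trans (n : ℕ) : ∀ z ∈ ZFSet.mk.{0} (PSet.ofNat n), z ∈ ZFSet.omega := by
  induction n with
  | zero => exact fun z hz => absurd hz (ZFSet.notMem_empty z)
  | succ n ih =>
    intro z hz
    rw [mk_succ, ZFSet.mem_insert_iff] at hz
    rcases hz with rfl | hz
    · exact mk_mem_omega n
    · exact ih z hz

theorem omega_ordinal : (ZFSet.omega.{0}).IsOrdinal := by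
  rw [ZFSet.isOrdinal_iff_forall_mem_isOrdinal]
  constructor
  · intro y hy z hz
    obtain ⟨n, rfl⟩ := mem_omega hy
    exact omega_trans n z hz
  · intro y hy
    obtain ⟨n, rfl⟩ := mem_omega hy
    exact mk_ordinal n

theorem cons_mem {M : Set ZFSet.{0}} {v : ℕ → ZFSet.{0}} {x : ZFSet.{0}} (hx : x ∈ M)
    (hv : ∀ i, v i ∈ M) : ∀ i, cons x v i ∈ M := by
  rintro (_ | i)
  · exact hx
  · exact hv i

theorem sat_fOrd_of {M : Set ZFSet.{0}} {v : ℕ → ZFSet.{0}} {c : ℕ} (h : (v c).IsOrdinal) :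
    Sat M (fOrd c) v := by
  rw [fOrd, Sat_and]
  refine ⟨?_, ?_⟩
  · intro y _ z _ h1
    have h2 := Sat_and.1 h1
    exact h.mem_trans (show z ∈ y from h2.2) (show y ∈ v c from h2.1)
  · intro w _ z _ y _ h1
    have h2 := Sat_and.1 h1
    have h3 := Sat_and.1 h2.2
    exact h.mem_trans' (show y ∈ z from h3.2) (show z ∈ w from h3.1) (show w ∈ v c from h2.1)

end S4Aux

variable {M : Set ZFSet.{0}} {v : ℕ → ZFSet.{0}}

/-- S4: the formula defines the supercompact cardinals. -/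
theorem sat_sc (hM : IsTransModelZF M) (hv : ∀ i, v i ∈ M) {c : ℕ}
    (h : Sat M (fSC c) v) : IsSupercompactIn M (v c) := by
  rw [fSC, Pool.Agent.Helper87.Sym.Sat_and, Pool.Agent.Helper87.Sym.Sat_and,
    Pool.Agent.Helper87.Sym.Sat_ex] at h
  obtain ⟨h1, ⟨w, hwM, hw⟩, h3⟩ := h
  rw [Pool.Agent.Helper87.Sym.Sat_and] at hw
  have hcard := E1aAux.sat_fCard hM (hv c) h1
  have hwc : w ∈ v c := hw.1
  have hwo : w.IsOrdinal := hcard.ordinal.mem hwc
  have hom : ZFSet.omega ⊆ w := E1aAux.sat_fLim hM (v := cons w v) (c := 0) hwM hw.2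
  refine ⟨hv c, hcard, ?_, ?_⟩
  · rcases (S4Aux.omega_ordinal.subset_iff_eq_or_mem hwo).1 hom with h4 | h4
    · rw [h4]
      exact hwc
    · exact hcard.ordinal.mem_trans h4 hwc
  · intro x hxM hxo hcx
    have h4 := h3 x hxM (Pool.Agent.Helper87.Sym.Sat_and.2
      ⟨S4Aux.sat_fOrd_of (v := cons x v) (c := 0) hxo,
        (E1aAux.sat_fSub hM (v := cons x v) (i := c + 1) (j := 0) (hv c)).2 hcx⟩)
    rw [Pool.Agent.Helper87.Sym.Sat_ex] at h4
    obtain ⟨p, hpM, h4⟩ := h4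
    rw [Pool.Agent.Helper87.Sym.Sat_ex] at h4
    obtain ⟨U, hUM, h4⟩ := h4
    rw [Pool.Agent.Helper87.Sym.Sat_and, fNM, Pool.Agent.Helper87.Sym.Sat_and,
      Pool.Agent.Helper87.Sym.Sat_and, Pool.Agent.Helper87.Sym.Sat_and,
      Pool.Agent.Helper87.Sym.Sat_and, Pool.Agent.Helper87.Sym.Sat_and] at h4
    obtain ⟨g0, g1, g2, g3, g4, g5, g6⟩ := h4
    have hv' : ∀ i, cons U (cons p (cons x v)) i ∈ M :=
      S4Aux.cons_mem hUM (S4Aux.cons_mem hpM (S4Aux.cons_mem hxM hv))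
    exact ⟨p, U, sat_fPk hM (v := cons U (cons p (cons x v))) (k := c + 3) (x := 2) (p := 1)
        (hv c) hxM hpM g0,
      { mem := hUM
        sub := sat_fN1 hM (v := cons U (cons p (cons x v))) hv' (p := 1) (U := 0) g1
        up := sat_fN2 hM (v := cons U (cons p (cons x v))) hv' (p := 1) (U := 0) g2
        ultra := sat_fN3 hM (v := cons U (cons p (cons x v))) hv' (p := 1) (U := 0) g3
        fine := sat_fN4 hM (v := cons U (cons p (cons x v))) hv' (x := 2) (p := 1) (U := 0) g4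
        complete := sat_fN5 hM (v := cons U (cons p (cons x v))) hv' (k := c + 3) (p := 1)
          (U := 0) g5
        normal := sat_fN6 hM (v := cons U (cons p (cons x v))) hv' (x := 2) (p := 1) (U := 0)
          g6 }⟩

end Pool.Agent.Helper23.SC
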