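import Pool.Agent.Helper23.SC.N3

/-! # Project SC, module U1 -/

set_option autoImplicit false

namespace Pool.Agent.Helper23.SC

open Cardinal Filter Set Pool.Agent.Helper33.HM Pool.Agent.Helper33.HMG Pool.Agent.Helper32.HB
open Pool.Agent.Helper87.Sym (Fml cons Sat IsTransModelZF)
open Pool.Agent.Helper23.XB

universe u


variable {P : Type u} [Preorder P] [OrderTop P] {κ : Cardinal.{u}} {α : Ordinal.{u}}
  {F : Ultrafilter (Set α.ToType)}

/-- U1a -/
theorem vN1_uN (hF : NF κ.ord.ToType F) (hP : #P < κ) : vN1 (pkN κ α) (uN hF hP : Nm P) = ⊤ := by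
  unfold vN1
  rw [iInf_eq_top]
  intro A
  rw [himp_eq_top_iff, vm_uN]
  exact inf_le_left

/-- U1b -/
theorem vN2_uN (hF : NF κ.ord.ToType F) (hP : #P < κ) : vN2 (pkN κ α) (uN hF hP : Nm P) = ⊤ := by
  unfold vN2
  rw [iInf_eq_top]
  intro A
  rw [iInf_eq_top]
  intro B
  rw [himp_eq_top_iff, vm_uN, vm_uN]
  refine le_inf (inf_le_right.trans inf_le_right) ?_
  intro p hp
  have h1 : p ∈ wA hF hP A := hp.1.2
  have h2 : p ∈ vSub A B := hp.2.1
  have h1' := (mem_wA hF hP A p).1 h1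
  show p ∈ wA hF hP B
  rw [mem_wA]
  filter_upwards [h1'] with s hs
  have h3 : p ∈ (vm (csN s) A ⇨ vm (csN s) B) := by
    have := (RO.mem_iInf (f := fun x => vm x A ⇨ vm x B) (p := p)).1 h2 (csN s)
    exact this
  exact RO.mem_himp.1 h3 p le_rfl hs


end Pool.Agent.Helper23.SC
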