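import Pool.Agent.Helper23.SC.N3

/-! # Project SC, module U2 -/

set_option autoImplicit false

namespace Pool.Agent.Helper23.SC

open Cardinal Filter Set Pool.Agent.Helper33.HM Pool.Agent.Helper33.HMG Pool.Agent.Helper32.HB
open Pool.Agent.Helper87.Sym (Fml cons Sat IsTransModelZF)
open Pool.Agent.Helper23.XB

universe u


variable {P : Type u} [Preorder P] [OrderTop P] {κ : Cardinal.{u}} {α : Ordinal.{u}}
  {F : Ultrafilter (Set α.ToType)}

omit [OrderTop P] in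
private theorem u2_top {U : RO P} (h : ∀ p, p ∈ U) : U = ⊤ :=
  RO.ext' fun p => ⟨fun _ => RO.mem_top p, fun _ => h p⟩

omit [OrderTop P] in
private theorem u2_of_top {U : RO P} (h : U = ⊤) (p : P) : p ∈ U := h ▸ RO.mem_top p

omit [OrderTop P] in
private theorem u2_sub {B A : Nm P} {φ : Nm P → RO P} {p : P} (h : p ∈ vSep B A φ) :
    p ∈ vSub B A := by
  refine RO.mem_iInf.2 fun y => ?_
  rw [RO.mem_himp]
  intro q hq hy
  exact ((RO.mem_iInf.1 h y).1 q hq hy).1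

/-- U2a: the values of separated sets. -/
theorem vSep_wA (hF : NF κ.ord.ToType F) (hP : #P < κ) (B : Nm P) (φ : Nm P → RO P) (p : P)
    (hB : p ∈ vSep B (pkN κ α) φ) :
    (p ∈ wA hF hP B ↔ ∀ᶠ s in (F : Filter (Set α.ToType)), p ∈ φ (csN s)) := by
  rw [mem_wA]
  refine Filter.eventually_congr ?_
  filter_upwards [hF.small] with s hs
  rw [mk_toType, card_ord] at hs
  have h1 := RO.mem_iInf.1 hB (csN s)
  have h2 : p ∈ vm (csN s) (pkN κ α : Nm P) := u2_of_top (vm_csN_pkN s hs) p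
  exact ⟨fun h => (h1.1 p le_rfl h).2, fun h => h1.2 p le_rfl ⟨h2, h⟩⟩

/-- U2b -/
theorem vN3_uN (hF : NF κ.ord.ToType F) (hP : #P < κ) : vN3 (pkN κ α) (uN hF hP : Nm P) = ⊤ := by
  refine u2_top fun p => RO.mem_iInf.2 fun A => RO.mem_iInf.2 fun B => ?_
  rw [RO.mem_himp]
  rintro q - ⟨hA, hB⟩
  rw [vm_uN, vm_uN]
  refine ⟨?_, ?_⟩
  · rintro r hr ⟨-, h1⟩
    refine RO.mem_compl.2 ?_
    rintro t ht ⟨-, h2⟩
    have h3 := (vSep_wA hF hP B _ t (RO.mem_lower (ht.trans hr) hB)).1 h2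
    have h4 : t ∈ (wA hF hP A)ᶜ := (mem_compl_wA hF hP A t).2 h3
    exact RO.mem_compl.1 h4 t le_rfl (RO.mem_lower ht h1)
  · rintro r hr h1
    refine ⟨RO.mem_lower hr hA, ?_⟩
    refine RO.mem_reg fun t ht => ?_
    by_contra hne
    push Not at hne
    have h4 : t ∈ (wA hF hP A)ᶜ := RO.mem_compl.2 hne
    have h5 := (mem_compl_wA hF hP A t).1 h4
    have hBt : t ∈ vSep B (pkN κ α) (fun y => (vm y A)ᶜ) := RO.mem_lower (ht.trans hr) hB
    have h6 : t ∈ wA hF hP B := (vSep_wA hF hP B _ t hBt).2 h5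
    exact RO.mem_compl.1 h1 t ht ⟨u2_sub hBt, h6⟩

/-- U2c -/
theorem vN4_uN (hF : NF κ.ord.ToType F) (hP : #P < κ) :
    vN4 (onm α) (pkN κ α) (uN hF hP : Nm P) = ⊤ := by
  refine u2_top fun p => RO.mem_iInf.2 fun i => RO.mem_iInf.2 fun B => ?_
  rw [RO.mem_himp]
  rintro q - ⟨hi, hB⟩
  rw [vm_uN]
  refine ⟨u2_sub hB, ?_⟩
  rw [vm_onm] at hi
  refine RO.mem_reg fun r hr => ?_
  obtain ⟨t, ht, k, hk⟩ := RO.mem_iSup.1 hi r hr
  refine ⟨t, ht, ?_⟩
  rw [vSep_wA hF hP B _ t (RO.mem_lower (ht.trans hr) hB)]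
  filter_upwards [hF.fine k] with s hs
  refine vm_congr_left (onm (Ordinal.ToType.toOrd k).1) i (csN s) t ⟨?_, ?_⟩
  · rw [veq_comm]
    exact hk
  · refine u2_of_top ?_ t
    rw [vm_onm_csN, if_pos hs]


end Pool.Agent.Helper23.SC
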