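import Pool.Agent.Helper23.SC.U2
import Pool.Agent.Helper23.XB.E2d

/-! # Project SC, module U3 -/

set_option autoImplicit false

namespace Pool.Agent.Helper23.SC

open Cardinal Filter Set Pool.Agent.Helper33.HM Pool.Agent.Helper33.HMG Pool.Agent.Helper32.HB
open Pool.Agent.Helper87.Sym (Fml cons Sat IsTransModelZF)
open Pool.Agent.Helper23.XB

universe u


variable {P : Type u} [Preorder P] [OrderTop P] {κ : Cardinal.{u}} {α : Ordinal.{u}}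
  {F : Ultrafilter (Set α.ToType)}

private theorem u3_vl {σ σ' τ : Nm P} {p : P} (h : p ∈ veq σ σ') (h' : p ∈ vm σ τ) :
    p ∈ vm σ' τ := vm_congr_left σ σ' τ p ⟨h, h'⟩

private theorem u3_vr {σ τ τ' : Nm P} {p : P} (h : p ∈ veq τ τ') (h' : p ∈ vm σ τ) :
    p ∈ vm σ τ' := vm_congr_right σ τ τ' p ⟨h, h'⟩

private theorem u3_vs {σ τ : Nm P} {p : P} (h : p ∈ veq σ τ) : p ∈ veq τ σ := by
  rwa [veq_comm]

private theorem u3_refl (σ : Nm P) (p : P) : p ∈ veq σ σ := by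
  rw [veq_refl]
  exact RO.mem_top p

/-- U3: completeness. -/
theorem vN5_uN (hκ : ℵ₀ ≤ κ) (hF : NF κ.ord.ToType F) (hP : #P < κ) :
    vN5 (onm κ.ord) (pkN κ α) (uN hF hP : Nm P) = ⊤ := by
  have _ := hκ
  have hc : #P < #κ.ord.ToType := by rwa [mk_toType, card_ord]
  rw [eq_top_iff]
  intro p0 _
  refine RO.mem_iInf.2 fun a => RO.mem_iInf.2 fun f => RO.mem_iInf.2 fun B => ?_
  rintro p _ ⟨ha, hf, hSep⟩
  have hSub : p ∈ vSub B (pkN κ α) := by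
    refine RO.mem_iInf.2 fun y => ?_
    rw [RO.mem_himp]
    intro q hq hy
    exact ((RO.mem_iInf.1 hSep y).1 q hq hy).1
  change p ∈ vm B (uN hF hP)
  rw [vm_uN]
  refine ⟨hSub, ?_⟩
  refine RO.mem_reg fun q hq => ?_
  have ha' : p ∈ vm a (onm κ.ord) := ha
  rw [vm_onm, RO.mem_iSup] at ha'
  obtain ⟨r, hr, b, hb⟩ := ha' q hq
  refine ⟨r, hr, ?_⟩
  have hrp : r ≤ p := hr.trans hq
  set β : Ordinal.{u} := (Ordinal.ToType.toOrd b).1 with hβ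
  have hβκ : β < κ.ord := (Ordinal.ToType.toOrd b).2
  have hβc : #β.ToType < #κ.ord.ToType := by
    rw [mk_toType, mk_toType, card_ord]
    exact Cardinal.lt_ord.1 hβκ
  obtain ⟨⟨hf1, hf2⟩, hf3⟩ := RO.mem_lower hrp hf
  -- elements of `f`
  have hel : ∀ t, t ≤ r → ∀ i z : Nm P, t ∈ vm (pairN i z) f →
      ∃ t' ≤ t, t' ∈ vm i a ∧ t' ∈ vm z (uN hF hP) := by
    intro t ht i z h
    obtain ⟨t1, ht1, x, h1⟩ := RO.mem_iSup.1 (RO.mem_himp.1 (RO.mem_iInf.1 hf1 (pairN i z)) t ht h)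
      t le_rfl
    obtain ⟨t2, ht2, y, h2⟩ := RO.mem_iSup.1 h1 t1 le_rfl
    obtain ⟨⟨h3, h4⟩, h5⟩ := h2
    rw [veq_pairN] at h5
    exact ⟨t2, ht2.trans ht1, u3_vl (u3_vs h5.1) h3, u3_vl (u3_vs h5.2) h4⟩
  -- the values of `f`
  have hex : ∀ (t : {t : P // t ≤ r}) (n : β.ToType), ∃ R ≤ t.1, ∃ z : Nm P,
      R ∈ vm (pairN (onm (Ordinal.ToType.toOrd n).1) z) f ∧ R ∈ wA hF hP z := by
    intro t n
    have h1 : t.1 ∈ vm (onm (Ordinal.ToType.toOrd n).1) a := by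
      refine u3_vr (u3_vs (RO.mem_lower t.2 hb)) ?_
      rw [vm_onm_lt (Ordinal.ToType.toOrd n).2]
      exact RO.mem_top _
    obtain ⟨t1, ht1, z, hz⟩ := RO.mem_iSup.1 (RO.mem_himp.1 (RO.mem_iInf.1 hf2 _) t.1 t.2 h1)
      t.1 le_rfl
    obtain ⟨t2, ht2, -, h2⟩ := hel t1 (ht1.trans t.2) _ z hz
    rw [vm_uN] at h2
    exact ⟨t2, ht2.trans ht1, z, RO.mem_lower ht2 hz, h2.2⟩
  choose R hR Z hRZ hRw using hex
  have hev : ∀ᶠ s in (F : Filter (Set α.ToType)), ∀ (n : β.ToType) (t : {t : P // t ≤ r}),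
      R t n ∈ vm (csN s) (Z t n) := by
    have h2 := hF.complete β.ToType
      (fun n => {s | ∀ t : {t : P // t ≤ r}, R t n ∈ vm (csN s) (Z t n)}) hβc (by
        intro n
        have h3 := hF.complete {t : P // t ≤ r} (fun t => {s | R t n ∈ vm (csN s) (Z t n)})
          ((mk_subtype_le _).trans_lt hc) fun t => hRw t n
        refine Filter.mem_of_superset h3 ?_
        intro s hs t
        exact mem_iInter.1 hs t)
    refine Filter.mem_of_superset h2 ?_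
    intro s hs n
    exact mem_iInter.1 hs n
  rw [vSep_wA hF hP B _ r (RO.mem_lower hrp hSep)]
  filter_upwards [hev] with s hs
  refine RO.mem_iInf.2 fun z => ?_
  rw [RO.mem_himp]
  intro t ht h
  refine RO.mem_reg fun t1 ht1 => ?_
  obtain ⟨t2, ht2, i, h2⟩ := RO.mem_iSup.1 h t1 ht1
  have ht2r : t2 ≤ r := ht2.trans (ht1.trans ht)
  obtain ⟨t3, ht3, h3, -⟩ := hel t2 ht2r i z h2
  have ht3r : t3 ≤ r := ht3.trans ht2r
  have h4 : t3 ∈ vm i (onm β) := u3_vr (RO.mem_lower ht3r hb) h3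
  rw [vm_onm, RO.mem_iSup] at h4
  obtain ⟨t4, ht4, n, hn⟩ := h4 t3 le_rfl
  have ht4r : t4 ≤ r := ht4.trans ht3r
  have h5 : t4 ∈ vm (pairN (onm (Ordinal.ToType.toOrd n).1) z) f := by
    refine u3_vl (σ := pairN i z) ?_ (RO.mem_lower (ht4.trans ht3) h2)
    rw [veq_pairN]
    exact ⟨hn, u3_refl _ _⟩
  have hR4 := hR ⟨t4, ht4r⟩ n
  refine ⟨R ⟨t4, ht4r⟩ n, hR4.trans (ht4.trans (ht3.trans ht2)), ?_⟩
  have h6 : R ⟨t4, ht4r⟩ n ∈ veq (Z ⟨t4, ht4r⟩ n) z :=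
    RO.mem_himp.1 (RO.mem_iInf.1 (RO.mem_iInf.1 (RO.mem_iInf.1 hf3 _) _) _) _
      (hR4.trans ht4r) ⟨hRZ ⟨t4, ht4r⟩ n, RO.mem_lower hR4 h5⟩
  exact u3_vr h6 (hs n ⟨t4, ht4r⟩)


end Pool.Agent.Helper23.SC
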