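import Pool.Agent.Helper23.SC.U2
import Pool.Agent.Helper23.XB.E2d

/-! # Project SC, module U4 -/

set_option autoImplicit false

namespace Pool.Agent.Helper23.SC

open Cardinal Filter Set Pool.Agent.Helper33.HM Pool.Agent.Helper33.HMG Pool.Agent.Helper32.HB
open Pool.Agent.Helper87.Sym (Fml cons Sat IsTransModelZF)
open Pool.Agent.Helper23.XB

universe u


variable {P : Type u} [Preorder P] [OrderTop P] {κ : Cardinal.{u}} {α : Ordinal.{u}}
  {F : Ultrafilter (Set α.ToType)}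

private theorem u4_vl {σ σ' τ : Nm P} {p : P} (h : p ∈ veq σ σ') (h' : p ∈ vm σ τ) :
    p ∈ vm σ' τ := vm_congr_left σ σ' τ p ⟨h, h'⟩

private theorem u4_vs {σ τ : Nm P} {p : P} (h : p ∈ veq σ τ) : p ∈ veq τ σ := by
  rwa [veq_comm]

omit [OrderTop P] in
private theorem u4_sup {ι : Sort*} {f : ι → RO P} {p : P} (i : ι) (h : p ∈ f i) :
    p ∈ ⨆ i, f i :=
  RO.mem_iSup.2 fun q hq => ⟨q, le_rfl, i, RO.mem_lower hq h⟩

private theorem u4_pair {y y' i i' f : Nm P} {p : P} (h : p ∈ veq y y') (hi : p ∈ veq i i')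
    (h' : p ∈ vm (pairN y i) f) : p ∈ vm (pairN y' i') f := by
  refine u4_vl (σ := pairN y i) ?_ h'
  rw [veq_pairN]
  exact ⟨h, hi⟩

private theorem u4_refl (σ : Nm P) (p : P) : p ∈ veq σ σ := by
  rw [veq_refl]
  exact RO.mem_top p

/-- Separation for subsets of `P_κ(α)`. -/
theorem exists_vSep (φ : Nm P → RO P) (hφ : ∀ y y', veq y y' ⊓ φ y ≤ φ y') :
    ∃ C : Nm P, vSep C (pkN κ α) φ = ⊤ := by
  refine ⟨ultN fun x : α.ToType → RO P => vSmall (onm κ.ord) (nmK x) ⊓ φ (nmK x), ?_⟩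
  rw [eq_top_iff]
  intro p _
  refine RO.mem_iInf.2 fun y => ⟨?_, ?_⟩
  · intro q _ hy
    have hy' : q ∈ vm y (ultN fun x : α.ToType → RO P =>
      vSmall (onm κ.ord) (nmK x) ⊓ φ (nmK x)) := hy
    rw [ultN, vm_mk] at hy'
    refine RO.mem_reg fun r hr => ?_
    obtain ⟨s, hs, i, hi, hi'⟩ := hy' r hr
    have h1 : s ∈ vSmall (onm κ.ord) (nmK i.1.1) ⊓ φ (nmK i.1.1) := RO.mem_lower hi i.2
    have h2 : s ∈ vm (nmK i.1.1) (pkN κ α : Nm P) := by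
      rw [vm_pkN]
      refine ⟨?_, h1.1⟩
      rw [vSub_nmK]
      exact RO.mem_top s
    exact ⟨s, hs, u4_vl (u4_vs hi') h2, hφ _ _ s ⟨u4_vs hi', h1.2⟩⟩
  · rintro q _ ⟨h1, h2⟩
    rw [vm_pkN] at h1
    have h3 := vSub_le_veq y q h1.1
    show q ∈ vm y (ultN fun x : α.ToType → RO P => vSmall (onm κ.ord) (nmK x) ⊓ φ (nmK x))
    rw [ultN, vm_mk]
    intro r hr
    have h4 := RO.mem_lower hr h3
    refine ⟨r, le_rfl, ⟨(_, r), ?_⟩, le_rfl, h4⟩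
    exact ⟨vSmall_congr _ _ _ r ⟨h4, RO.mem_lower hr h1.2⟩, hφ _ _ r ⟨h4, RO.mem_lower hr h2⟩⟩

/-- U4: normality. -/
theorem vN6_uN (hκ : ℵ₀ ≤ κ) (hF : NF κ.ord.ToType F) (hP : #P < κ) :
    vN6 (onm α) (pkN κ α) (uN hF hP : Nm P) = ⊤ := by
  have _ := hκ
  rw [eq_top_iff]
  intro p0 _
  refine RO.mem_iInf.2 fun f => RO.mem_iInf.2 fun B => ?_
  rintro p _ ⟨-, hSep, hB⟩
  rw [vm_uN] at hB
  have hA := (vSep_wA hF hP B _ p hSep).1 hB.2
  rw [RO.mem_iSup]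
  intro q hq
  -- for almost all `s` there are `k ∈ s` and `r ≤ q`
  have h1 : ∀ᶠ s in (F : Filter (Set α.ToType)), ∃ k ∈ s, ∃ r, r ≤ q ∧
      r ∈ vm (pairN (csN s) (onm (Ordinal.ToType.toOrd k).1)) f := by
    filter_upwards [hA] with s hs
    obtain ⟨r, hr, i, hi, hi'⟩ := RO.mem_iSup.1 hs q hq
    have hi2 : r ∈ vm i (csN s) := hi
    rw [vm_csN, RO.mem_iSup] at hi2
    obtain ⟨t, ht, k, hk⟩ := hi2 r le_rfl
    exact ⟨k.1, k.2, t, ht.trans hr, u4_pair (u4_refl _ _) hk (RO.mem_lower ht hi')⟩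
  -- normality
  obtain ⟨s0, k0, -, -⟩ := h1.exists
  classical
  let g : Set α.ToType → α.ToType := fun s =>
    if h : ∃ k ∈ s, ∃ r, r ≤ q ∧ r ∈ vm (pairN (csN s) (onm (Ordinal.ToType.toOrd k).1)) f
    then h.choose else k0
  have hg : ∀ s, (∃ k ∈ s, ∃ r, r ≤ q ∧
      r ∈ vm (pairN (csN s) (onm (Ordinal.ToType.toOrd k).1)) f) →
      g s ∈ s ∧ ∃ r, r ≤ q ∧ r ∈ vm (pairN (csN s) (onm (Ordinal.ToType.toOrd (g s)).1)) f := by
    intro s h
    have e : g s = h.choose := dif_pos h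
    rw [e]
    exact h.choose_spec
  obtain ⟨x, hx⟩ := hF.normal g (by
    filter_upwards [h1] with s hs
    exact (hg s hs).1)
  have h2 : ∀ᶠ s in (F : Filter (Set α.ToType)), ∃ r, r ≤ q ∧
      r ∈ vm (pairN (csN s) (onm (Ordinal.ToType.toOrd x).1)) f := by
    filter_upwards [h1, hx] with s hs hxs
    have := (hg s hs).2
    rw [hxs] at this
    exact this
  -- a constant condition
  have h3 : ∃ r, r ≤ q ∧ ∀ᶠ s in (F : Filter (Set α.ToType)),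
      r ∈ vm (pairN (csN s) (onm (Ordinal.ToType.toOrd x).1)) f := by
    by_contra hne
    have hc : #P < #κ.ord.ToType := by rwa [mk_toType, card_ord]
    have h4 := hF.complete {r : P // r ≤ q}
      (fun r => {s | ¬ r.1 ∈ vm (pairN (csN s) (onm (Ordinal.ToType.toOrd x).1)) f})
      ((mk_subtype_le _).trans_lt hc) (fun r =>
        Ultrafilter.eventually_not.2 fun h5 => hne ⟨r.1, r.2, h5⟩)
    obtain ⟨s, ⟨r, hr, hr'⟩, hs⟩ := (h2.and h4).exists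
    exact mem_iInter.1 hs ⟨r, hr⟩ hr'
  obtain ⟨r, hr, h4⟩ := h3
  obtain ⟨C, hC⟩ := exists_vSep (κ := κ) (α := α)
    (fun y : Nm P => vm (pairN y (onm (Ordinal.ToType.toOrd x).1)) f)
    (fun y y' t ht => u4_pair ht.1 (u4_refl _ _) ht.2)
  have hCr : r ∈ vSep C (pkN κ α)
      (fun y : Nm P => vm (pairN y (onm (Ordinal.ToType.toOrd x).1)) f) := by
    rw [hC]
    exact RO.mem_top r
  refine ⟨r, hr, onm (Ordinal.ToType.toOrd x).1, u4_sup C ⟨?_, hCr, ?_⟩⟩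
  · show r ∈ vm _ _
    rw [vm_onm_lt (Ordinal.ToType.toOrd x).2]
    exact RO.mem_top r
  · rw [vm_uN]
    refine ⟨RO.mem_iInf.2 fun y => ?_, (vSep_wA hF hP C _ r hCr).2 h4⟩
    intro t ht hy
    exact ((RO.mem_iInf.1 hCr y).1 t ht hy).1

end Pool.Agent.Helper23.SC
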