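import Pool.Agent.Helper23.SC.Defs
import Pool.Agent.Helper23.XB.E1b

/-! # Project SC, module V1 -/

set_option autoImplicit false

namespace Pool.Agent.Helper23.SC

open Cardinal Filter Set Pool.Agent.Helper33.HM Pool.Agent.Helper33.HMG Pool.Agent.Helper32.HB
open Pool.Agent.Helper87.Sym (Fml cons Sat IsTransModelZF cons_zero cons_succ)
open Pool.Agent.Helper23.XB

universe u


variable {P : Type u} [Preorder P] [OrderTop P]

open Pool.Agent.Helper23.XB.H28E1b

theorem val_fPk (k x p : ℕ) (v : ℕ → Nm P) : val (fPk k x p) v = vPk (v k) (v x) (v p) := by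
  unfold fPk vPk vSmall
  simp only [val_all, val_ex, val_and, val_iff, val_mem, val_fSub, val_fOnto, cons_zero,
    cons_succ]

theorem val_fN1 (p U : ℕ) (v : ℕ → Nm P) : val (fN1 p U) v = vN1 (v p) (v U) := by
  unfold fN1 vN1
  simp only [val_all, val_imp, val_mem, val_fSub, cons_zero, cons_succ]

theorem val_fN2 (p U : ℕ) (v : ℕ → Nm P) : val (fN2 p U) v = vN2 (v p) (v U) := by
  unfold fN2 vN2
  simp only [val_all, val_imp, val_and, val_mem, val_fSub, cons_zero, cons_succ]

theorem val_fN3 (p U : ℕ) (v : ℕ → Nm P) : val (fN3 p U) v = vN3 (v p) (v U) := by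
  unfold fN3 vN3 vSep
  simp only [val_all, val_imp, val_and, val_iff, val_neg, val_mem, val_fSub, cons_zero, cons_succ]

theorem val_fN4 (x p U : ℕ) (v : ℕ → Nm P) : val (fN4 x p U) v = vN4 (v x) (v p) (v U) := by
  unfold fN4 vN4 vSep
  simp only [val_all, val_imp, val_and, val_iff, val_mem, cons_zero, cons_succ]

theorem val_fN5 (k p U : ℕ) (v : ℕ → Nm P) : val (fN5 k p U) v = vN5 (v k) (v p) (v U) := by
  unfold fN5 vN5 vSep
  simp only [val_all, val_ex, val_imp, val_and, val_iff, val_mem, val_fPm, val_fFun, cons_zero,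
    cons_succ]

theorem val_fN6 (x p U : ℕ) (v : ℕ → Nm P) : val (fN6 x p U) v = vN6 (v x) (v p) (v U) := by
  unfold fN6 vN6 vSep
  simp only [val_all, val_ex, val_imp, val_and, val_iff, val_mem, val_fPm, val_fFun, cons_zero,
    cons_succ]

/-- V1: the value of the formula. -/
theorem val_fSC (c : ℕ) (v : ℕ → Nm P) : val (fSC c) v = vSC (v c) := by
  unfold fSC vSC fNM vNM
  simp only [val_all, val_ex, val_imp, val_and, val_mem, val_fCard, val_fLim, val_fOrd,
    val_fSub, val_fPk, val_fN1, val_fN2, val_fN3, val_fN4, val_fN5, val_fN6, cons_zero,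
    cons_succ]

end Pool.Agent.Helper23.SC
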