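import Pool.Agent.Helper23.SC.Defs
import Pool.Agent.Helper23.XB.E1b
import Pool.Agent.Helper23.XB.E4

/-! # Project SC, module V2 -/

set_option autoImplicit false

namespace Pool.Agent.Helper23.SC

open Cardinal Filter Set Pool.Agent.Helper33.HM Pool.Agent.Helper33.HMG Pool.Agent.Helper32.HB
open Pool.Agent.Helper87.Sym (Fml cons Sat IsTransModelZF)
open Pool.Agent.Helper23.XB

universe u


variable {P : Type u} [Preorder P] [OrderTop P]

private theorem V2.ord_iff {σ : Nm P} {p : P} : p ∈ vOrd σ ↔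
    (∀ y z, ∀ q, q ≤ p → q ∈ vm y σ → q ∈ vm z y → q ∈ vm z σ) ∧
    ∀ w z y, ∀ q, q ≤ p → q ∈ vm w σ → q ∈ vm z w → q ∈ vm y z → q ∈ vm y w := by
  unfold vOrd
  simp only [RO.mem_inf, RO.mem_iInf, RO.mem_himp]
  constructor
  · rintro ⟨h1, h2⟩
    exact ⟨fun y z q hq h3 h4 => h1 y z q hq ⟨h3, h4⟩,
      fun w z y q hq h3 h4 h5 => h2 w z y q hq ⟨⟨h3, h4⟩, h5⟩⟩
  · rintro ⟨h1, h2⟩
    exact ⟨fun y z q hq h3 => h1 y z q hq h3.1 h3.2,
      fun w z y q hq h3 => h2 w z y q hq h3.1.1 h3.1.2 h3.2⟩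

private theorem V2.ord_mem {σ τ : Nm P} {p : P} (h : p ∈ vOrd σ) (h' : p ∈ vm τ σ) :
    p ∈ vOrd τ := by
  rw [V2.ord_iff] at h ⊢
  refine ⟨fun y z q hq h3 h4 => h.2 τ y z q hq (RO.mem_lower hq h') h3 h4,
    fun w z y q hq h3 h4 h5 => h.2 w z y q hq ?_ h4 h5⟩
  exact h.1 τ w q hq (RO.mem_lower hq h') h3

/-- V2: the ordinals of the extension are the ordinals of the ground model. -/
theorem exists_onm (σ : Nm P) (p : P) (h : p ∈ vOrd σ) :
    ∃ q ≤ p, ∃ α : Ordinal.{u}, q ∈ veq σ (onm α) := by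
  induction σ generalizing p with
  | mk ι x c ih =>
    set σ : Nm P := .mk ι x c with hσ
    -- the children
    have hch : ∀ i q, q ≤ c i → q ∈ vm (x i) σ := by
      intro i q hq r hr
      exact ⟨r, le_rfl, i, hr.trans hq, feq_refl _ _⟩
    -- some ordinal is avoided
    have hex : ∃ α : Ordinal.{u}, ∃ q, q ≤ p ∧ q ∈ (vm (onm α) σ)ᶜ := by
      by_contra hcon
      push Not at hcon
      have h1 : ∀ α : Ordinal.{u}, ∃ f : ι × P, f.2 ∈ veq (onm α) (x f.1) := by
        intro α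
        have h2 : ¬ p ∈ (vm (onm α) σ)ᶜ := hcon α p le_rfl
        rw [RO.mem_compl] at h2
        push Not at h2
        obtain ⟨q, hq, hq2⟩ := h2
        obtain ⟨s, hs, i, hi, hi2⟩ := hq2 q le_rfl
        exact ⟨(i, s), hi2⟩
      choose f hf using h1
      refine not_injective_of_ordinal f fun α β hαβ => ?_
      by_contra hne
      have h3 := hf β
      rw [← hαβ] at h3
      have h4 : (f α).2 ∈ veq (onm α : Nm P) (onm β) :=
        feq_trans (hf α) (feq_symm h3)
      rw [veq_onm hne] at h4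
      exact RO.not_mem_bot _ h4
    obtain ⟨α, ⟨q, hq, hqα⟩, hmin⟩ := WellFounded.has_min
      (wellFounded_lt (α := Ordinal.{u})) {α | ∃ q, q ≤ p ∧ q ∈ (vm (onm α) σ)ᶜ} hex
    have hlow : ∀ β < α, p ∈ vm (onm β) σ := by
      intro β hβ
      rw [← compl_compl (vm (onm β) σ), RO.mem_compl]
      intro r hr hr2
      exact hmin β ⟨r, hr, hr2⟩ hβ
    refine ⟨q, hq, α, ?_⟩
    refine veq_of_vSub σ (onm α) q ⟨?_, ?_⟩
    · refine RO.mem_iInf.2 fun y => ?_
      rw [RO.mem_himp]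
      intro r hr hry
      refine RO.mem_reg fun s hs => ?_
      obtain ⟨t, ht, i, hi, hi2⟩ := hry s hs
      have htp : t ≤ p := ht.trans (hs.trans (hr.trans hq))
      have h1 : t ∈ vm (x i) σ := hch i t hi
      obtain ⟨u, hu, β, hβ⟩ := ih i t (V2.ord_mem (RO.mem_lower htp h) h1)
      have h2 : u ∈ vm (onm β) σ := vm_congr_left (x i) (onm β) σ u
        ⟨hβ, RO.mem_lower hu h1⟩
      have h3 : β < α := by
        rcases lt_trichotomy β α with h4 | h4 | h4
        · exact h4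
        · subst h4
          exact absurd h2 (RO.mem_compl.1 hqα u (hu.trans (ht.trans (hs.trans hr))))
        · exfalso
          have h5 : u ∈ vm (onm α : Nm P) (onm β) := by
            rw [vm_onm_lt h4]
            exact RO.mem_top u
          have h6 := (V2.ord_iff.1 h).1 (onm β) (onm α) u (hu.trans htp) h2 h5
          exact RO.mem_compl.1 hqα u (hu.trans (ht.trans (hs.trans hr))) h6
      refine ⟨u, hu.trans ht, ?_⟩
      have h7 : u ∈ veq y (onm β) := feq_trans (feq_mono hi2 hu) hβ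
      have h8 : u ∈ vm (onm β : Nm P) (onm α) := by
        rw [vm_onm_lt h3]
        exact RO.mem_top u
      exact vm_congr_left (onm β) y (onm α) u ⟨feq_symm h7, h8⟩
    · refine RO.mem_iInf.2 fun y => ?_
      rw [RO.mem_himp]
      intro r hr hry
      rw [vm_onm] at hry
      refine RO.mem_reg fun s hs => ?_
      obtain ⟨t, ht, i, hi⟩ := RO.mem_iSup.1 hry s hs
      refine ⟨t, ht, ?_⟩
      have h1 := hlow _ (mem_Iio.1 (Ordinal.ToType.toOrd i).2)
      have htp : t ≤ p := ht.trans (hs.trans (hr.trans hq))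
      exact vm_congr_left _ y σ t ⟨feq_symm hi, RO.mem_lower htp h1⟩

end Pool.Agent.Helper23.SC
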