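import Pool.Agent.Helper23.SC.S4
import Pool.Agent.Helper23.SC.V1
import Pool.Agent.Helper23.SC.V2
import Pool.Agent.Helper23.SC.U1
import Pool.Agent.Helper23.SC.U2
import Pool.Agent.Helper23.SC.U3
import Pool.Agent.Helper23.SC.U4
import Pool.Agent.Helper23.SC.C1
import Pool.Agent.Helper23.XB.A0

/-! # Project SC, module Z1 -/

set_option autoImplicit false

namespace Pool.Agent.Helper23.SC

open Cardinal Filter Set Pool.Agent.Helper33.HM Pool.Agent.Helper33.HMG Pool.Agent.Helper32.HB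
open Pool.Agent.Helper87.Sym (Fml cons Sat IsTransModelZF)
open Pool.Agent.Helper23.XB

universe u


variable {P : Type u} [Preorder P] [OrderTop P] {κ : Cardinal.{u}}

/-- Z1a -/
theorem vNM_uN {α : Ordinal.{u}} {F : Ultrafilter (Set α.ToType)} (hκ : ℵ₀ ≤ κ)
    (hF : NF κ.ord.ToType F) (hP : #P < κ) :
    vNM (onm κ.ord) (onm α) (pkN κ α) (uN hF hP : Nm P) = ⊤ := by
  unfold vNM
  rw [vN1_uN, vN2_uN, vN3_uN, vN4_uN, vN5_uN hκ, vN6_uN hκ]
  simp

open Pool.Agent.Helper23.XB.H28E1b in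
open Pool.Agent.Helper87.Sym (cons_zero cons_succ) in
/-- the value of the last part of the formula -/
theorem val_wit (v : ℕ → Nm P) :
    val (.ex (.ex (.and (fPk 3 2 1) (fNM 3 2 1 0)))) v =
      ⨆ p, ⨆ U, vPk (v 1) (v 0) p ⊓ vNM (v 1) (v 0) p U := by
  unfold fNM vNM
  simp only [val_ex, val_and, val_fPk, val_fN1, val_fN2, val_fN3, val_fN4, val_fN5, val_fN6,
    cons_zero, cons_succ]

/-- Z1b: small forcing preserves supercompact cardinals. -/
theorem vSC_small (hκ : Supercompact κ) (hP : #P < κ) : vSC (onm κ.ord : Nm P) = ⊤ := by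
  unfold vSC
  rw [vCard_small hκ.1.le hP, vLim_omega hκ.1, top_inf_eq, top_inf_eq, eq_top_iff]
  refine le_iInf fun x => ?_
  rw [le_himp_iff, top_inf_eq]
  intro p hp
  refine RO.mem_reg fun q hq => ?_
  obtain ⟨r, hr, α, hα⟩ := exists_onm x q (RO.mem_lower hq hp.1)
  refine ⟨r, hr, ?_⟩
  obtain ⟨F, hF⟩ := nf_of_supercompact κ hκ κ.ord.ToType (mk_ord_toType κ) α.ToType
  have h1 : r ∈ H28E1b.val (.ex (.ex (.and (fPk 3 2 1) (fNM 3 2 1 0))))
      (cons (onm α) (fun _ => (onm κ.ord : Nm P))) := by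
    rw [val_wit]
    have h2 : (⊤ : RO P) ≤ ⨆ p, ⨆ U, vPk (onm κ.ord) (onm α) p ⊓ vNM (onm κ.ord) (onm α) p U := by
      refine le_iSup_of_le (pkN κ α) (le_iSup_of_le (uN hF hP) ?_)
      rw [vPk_pkN, vNM_uN hκ.1.le hF hP, top_inf_eq]
    exact h2 r (RO.mem_top r)
  have h2 : r ∈ H28E1b.val (.ex (.ex (.and (fPk 3 2 1) (fNM 3 2 1 0))))
      (cons x (fun _ => (onm κ.ord : Nm P))) := by
    refine Fc_congr (fun i => ?_) h1
    cases i with
    | zero => exact feq_symm hα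
    | succ i => exact feq_refl _ _
  rw [val_wit] at h2
  exact h2

/-- Z1c -/
theorem fc_sc (hκ : Supercompact κ) (hP : #P < κ) (v : ℕ → Nm P) (c : ℕ)
    (hv : v c = onm κ.ord) (p : P) : Fc (fSC c) v p := by
  rw [← H28E1b.mem_val, val_fSC, hv, vSC_small hκ hP]
  exact RO.mem_top p


end Pool.Agent.Helper23.SC
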